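import Pool.Agent.Q147.LG.StratA

/-!
# Boxes of exponents: closed forms
-/

set_option autoImplicit false

namespace Pool.Agent.Q147.LG

open Module Pool.Agent.Y787.HS
open Pool.Agent.Y787 (QC mem_QC HypC hyperplane hyperplane' Lt_one baker')

section arith

variable {σ : Type} [Fintype σ] [DecidableEq σ]

/-- a box of exponents -/
noncomputable def box (a : σ → ℕ) : Finset (σ →₀ ℕ) :=
  Finset.Iic (Finsupp.equivFunOnFinite.symm a)

theorem mem_box (a : σ → ℕ) (s : σ →₀ ℕ) : s ∈ box a ↔ ∀ i, s i ≤ a i := by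
  rw [box, Finset.mem_Iic, Finsupp.le_def]
  rfl

theorem low_box (a : σ → ℕ) : Low (box a) := by
  intro s hs t ht
  rw [mem_box] at hs ⊢
  exact fun i => (ht i).trans (hs i)

theorem card_box (a : σ → ℕ) : (box a).card = ∏ i, (a i + 1) := by
  rw [box, Finsupp.card_Iic]
  rw [Finset.prod_subset (Finset.subset_univ _)]
  · refine Finset.prod_congr rfl fun i _ => ?_
    rw [Nat.card_Iic]
    rfl
  · intro i _ hi
    rw [Finsupp.notMem_support_iff] at hi
    rw [hi, Nat.card_Iic, zero_add]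

theorem degree_box (a : σ → ℕ) {s : σ →₀ ℕ} (hs : s ∈ box a) : s.degree ≤ ∑ i, a i := by
  rw [Finsupp.degree_eq_sum]
  exact Finset.sum_le_sum fun i _ => (mem_box a s).1 hs i

theorem add_box (a b : σ → ℕ) : ∀ s ∈ box a, ∀ t ∈ box b, s + t ∈ box (fun i => a i + b i) := by
  intro s hs t ht
  rw [mem_box] at hs ht ⊢
  intro i
  rw [Finsupp.add_apply]
  exact Nat.add_le_add (hs i) (ht i)

/-- the side of the box of multipliers -/
def side (m : ℕ) (i₀ : σ) (a : σ → ℕ) (i : σ) : ℕ :=
  (if i = i₀ then m else 1) * (Nat.sqrt (a i) + 1) - 1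

/-- the number of multipliers -/
def num (a : σ → ℕ) : ℕ := ∏ i, (Nat.sqrt (a i) + 1)

theorem num_pos (a : σ → ℕ) : 0 < num a := Finset.prod_pos fun i _ => Nat.succ_pos _

theorem side_succ {m : ℕ} (hm : 0 < m) (i₀ : σ) (a : σ → ℕ) (i : σ) :
    side m i₀ a i + 1 = (if i = i₀ then m else 1) * (Nat.sqrt (a i) + 1) := by
  have h1 : 0 < (if i = i₀ then m else 1) * (Nat.sqrt (a i) + 1) := by
    apply Nat.mul_pos _ (Nat.succ_pos _)
    split_ifs
    · exact hm
    · exact one_pos
  rw [side]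
  omega

theorem card_side {m : ℕ} (hm : 0 < m) (i₀ : σ) (a : σ → ℕ) :
    (box (side m i₀ a)).card = m * num a := by
  rw [card_box]
  simp only [side_succ hm]
  rw [Finset.prod_mul_distrib, Finset.prod_ite_eq' Finset.univ i₀, if_pos (Finset.mem_univ _), num]

theorem card_sum {m : ℕ} (hm : 0 < m) (i₀ : σ) (a : σ → ℕ) :
    (box (fun i => a i + side m i₀ a i)).card ≤
      (m + 1) * 2 ^ (Fintype.card σ - 1) * num a * num a := by
  rw [card_box]
  have h1 : ∀ i, a i + side m i₀ a i + 1 ≤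
      (if i = i₀ then m + 1 else 2) * ((Nat.sqrt (a i) + 1) * (Nat.sqrt (a i) + 1)) := by
    intro i
    have h2 := side_succ hm i₀ a i
    have h3 : a i < (Nat.sqrt (a i) + 1) * (Nat.sqrt (a i) + 1) := Nat.lt_succ_sqrt (a i)
    set p := Nat.sqrt (a i) + 1 with hp
    have hp1 : 1 ≤ p := Nat.succ_pos _
    have h4 : p ≤ p * p := Nat.le_mul_of_pos_left p hp1
    split_ifs at h2 ⊢
    · have h5 : m * p ≤ m * (p * p) := Nat.mul_le_mul_left _ h4
      have h6 : (m + 1) * (p * p) = m * (p * p) + p * p := by ring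
      omega
    · have h6 : 1 * p = p := one_mul p
      omega
  refine le_trans (Finset.prod_le_prod' fun i _ => h1 i) ?_
  rw [Finset.prod_mul_distrib, Finset.prod_mul_distrib]
  have h2 : ∏ i : σ, (if i = i₀ then m + 1 else 2) = (m + 1) * 2 ^ (Fintype.card σ - 1) := by
    rw [← Finset.mul_prod_erase Finset.univ _ (Finset.mem_univ i₀), if_pos rfl]
    congr 1
    rw [Finset.prod_congr rfl (g := fun _ => 2) (fun i hi => if_neg (Finset.ne_of_mem_erase hi)),
      Finset.prod_const, Finset.card_erase_of_mem (Finset.mem_univ _), Finset.card_univ]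
  rw [h2, num]
  exact le_of_eq (by ring)

/-- the closed form of the exponent -/
def con (m k : ℕ) : ℕ := m ^ 2 + (m + 1) * 2 ^ (k - 1)

theorem con_bound1 {m : ℕ} (hm : 0 < m) (i₀ : σ) (a : σ → ℕ) :
    m * (num a * m - 1) + ((box (fun i => a i + side m i₀ a i)).card -
      (box (side m i₀ a)).card) / num a + 1 ≤ con m (Fintype.card σ) * num a := by
  have h0 := num_pos a
  set h := num a with hh
  have h1 : ((box (fun i => a i + side m i₀ a i)).card - (box (side m i₀ a)).card) / h ≤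
      (m + 1) * 2 ^ (Fintype.card σ - 1) * h - m := by
    rw [card_side hm, ← hh]
    have h2 := card_sum hm i₀ a
    rw [← hh] at h2
    have h3 : (box (fun i => a i + side m i₀ a i)).card - m * h ≤
        ((m + 1) * 2 ^ (Fintype.card σ - 1) * h - m) * h := by
      rw [Nat.sub_mul]
      exact Nat.sub_le_sub_right h2 _
    calc ((box (fun i => a i + side m i₀ a i)).card - m * h) / h
        ≤ (((m + 1) * 2 ^ (Fintype.card σ - 1) * h - m) * h) / h := Nat.div_le_div_right h3
      _ = _ := Nat.mul_div_cancel _ h0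
  have h2 : m * (h * m - 1) = m ^ 2 * h - m := by
    rw [Nat.mul_sub, mul_one]
    congr 1
    ring
  have h3 : m ≤ m ^ 2 * h := by
    calc m = m * 1 := (mul_one m).symm
      _ ≤ m * (m * h) := Nat.mul_le_mul_left _ (Nat.mul_pos hm h0)
      _ = m ^ 2 * h := by ring
  have h4 : con m (Fintype.card σ) * h = m ^ 2 * h + (m + 1) * 2 ^ (Fintype.card σ - 1) * h := by
    rw [con]; ring
  omega

theorem con_bound2 {m : ℕ} (hm : 0 < m) (i₀ : σ) (a : σ → ℕ) :
    m * (m - 1) + (box (side m i₀ a)).card ≤ con m (Fintype.card σ) * num a := by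
  have h0 := num_pos a
  rw [card_side hm]
  set h := num a with hh
  have h4 : con m (Fintype.card σ) * h = m ^ 2 * h + (m + 1) * 2 ^ (Fintype.card σ - 1) * h := by
    rw [con]; ring
  have h5 : m * (m - 1) ≤ m ^ 2 * h := by
    calc m * (m - 1) ≤ m * m := Nat.mul_le_mul_left _ (Nat.sub_le _ _)
      _ = m ^ 2 * 1 := by ring
      _ ≤ m ^ 2 * h := Nat.mul_le_mul_left _ h0
  have h6 : m * h ≤ (m + 1) * 2 ^ (Fintype.card σ - 1) * h := by
    apply Nat.mul_le_mul_right
    calc m ≤ m + 1 := Nat.le_succ _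
      _ = (m + 1) * 1 := (mul_one _).symm
      _ ≤ _ := Nat.mul_le_mul_left _ Nat.one_le_two_pow
  omega

theorem sum_side_le {m : ℕ} (hm : 0 < m) (i₀ : σ) (a : σ → ℕ) :
    ∑ i, side m i₀ a i ≤ m * ∑ i, (a i + 1) := by
  rw [Finset.mul_sum]
  refine Finset.sum_le_sum fun i _ => ?_
  have h1 := side_succ hm i₀ a i
  have h2 : Nat.sqrt (a i) ≤ a i := Nat.sqrt_le_self _
  have h3 : (if i = i₀ then m else 1) * (Nat.sqrt (a i) + 1) ≤ m * (a i + 1) := by
    refine Nat.mul_le_mul ?_ (Nat.succ_le_succ h2)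
    split_ifs
    · exact le_rfl
    · exact hm
  omega

end arith

end Pool.Agent.Q147.LG
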