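import Pool.Agent.Q147.LG.Pair
import Pool.Agent.Y787.CStrat

/-!
# Complex logarithms
-/

set_option autoImplicit false

namespace Pool.Agent.Q147.LG

open Module Pool.Agent.Y787.HS
open Pool.Agent.Y787 (QC mem_QC HypC)
open Pool.Agent.H301R2.SSE (Lt Lt_log)

theorem alg_comb {N : ℕ} (l : Fin N → ℂ) (halg : ∀ j, IsAlgebraic ℚ (Complex.exp (l j)))
    (a : Fin N → ℤ) : IsAlgebraic ℚ (Complex.exp (∑ j, (a j : ℂ) * l j)) := by
  rw [Complex.exp_sum]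
  refine Finset.prod_induction _ (IsAlgebraic ℚ) (fun _ _ => IsAlgebraic.mul) isAlgebraic_one
    fun j _ => ?_
  rw [Complex.exp_int_mul]
  rcases Int.eq_nat_or_neg (a j) with ⟨n, h | h⟩
  · rw [h, zpow_natCast]
    exact (halg j).pow n
  · rw [h, zpow_neg, zpow_natCast]
    exact ((halg j).pow n).inv

/-- **Dimension.** -/
theorem dimC {m : ℕ} {q q' : ℕ → ℕ} {S : Set (Fin m → ℂ)} (h : Thin Lt q S)
    (hq : ∀ M, q M ≤ q' M + 1)
    (W : Submodule (QC ℂ) ℂ) [FiniteDimensional (QC ℂ) W] (hW : W ≤ Lt)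
    (φ : Fin (q' (finrank (QC ℂ) W) + 1) → ((Fin m → W) →ₗ[(QC ℂ)] (QC ℂ))) :
    ∃ P : MvPolynomial (Fin (q' (finrank (QC ℂ) W) + 1)) (QC ℂ), P ≠ 0 ∧ ∀ y : Fin m → W,
      (fun i => (y i : ℂ)) ∈ S → MvPolynomial.eval (fun k => φ k y) P = 0 :=
  have := Pool.Agent.Y787.uncountable_complex
  (h.mono (q' := fun M => q' M + 1) (fun _ h => h) hq).dim W hW φ

/-- **Number of tuples.** -/
theorem countC {m N : ℕ} {q q' : ℕ → ℕ} {S : Set (Fin m → ℂ)} (h : Thin Lt q S)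
    (hq : ∀ M, q M ≤ q' M + 1) (l : Fin N → ℂ)
    (halg : ∀ j, IsAlgebraic ℚ (Complex.exp (l j))) (hli : LinearIndependent ℚ l) :
    ∃ κ : ℕ, ∀ H : ℕ, 1 ≤ H → Set.ncard {a : Fin m → Fin N → ℤ | (∀ i j, |a i j| ≤ H) ∧
      (fun i => ∑ j, (a i j : ℂ) * l j) ∈ S} ≤ κ * H ^ q' N := by
  have := Pool.Agent.Y787.uncountable_complex
  exact h.count l (Pool.Agent.Y787.li_of_consC l (Pool.Agent.Y787.li_consC l halg hli))
    (fun j => Lt_log (halg j)) (hq N)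

/-- number of `ℚ`-linearly independent tuples of logarithms -/
theorem countC' {m N : ℕ} {q q' : ℕ → ℕ} {A : Finset (Fin m →₀ ℕ)} (h : Thin Lt q (Dep A))
    (hq : ∀ M, q M ≤ q' M + 1) (l : Fin N → ℂ)
    (halg : ∀ j, IsAlgebraic ℚ (Complex.exp (l j))) (hli : LinearIndependent ℚ l) :
    ∃ κ : ℕ, ∀ H : ℕ, 1 ≤ H → Set.ncard {a : Fin m → Fin N → ℤ | (∀ i j, |a i j| ≤ H) ∧
      LinearIndependent ℚ (fun i => ∑ j, (a i j : ℂ) * l j) ∧
      RlA (QC ℂ) A (fun i => ∑ j, (a i j : ℂ) * l j)} ≤ κ * H ^ q' N := by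
  obtain ⟨κ, hκ⟩ := countC h hq l halg hli
  refine ⟨κ, fun H hH => le_trans (Set.ncard_le_ncard ?_ ?_) (hκ H hH)⟩
  · rintro a ⟨h1, h2, h3⟩
    exact ⟨h1, Pool.Agent.Y787.li_consC _ (fun i => alg_comb l halg (a i)) h2, h3⟩
  · exact (box_finite m N H).subset fun a ha => ha.1

end Pool.Agent.Q147.LG
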