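import Mathlib

/-!
# Subspaces with independent products

Let `K` be an infinite field, `L` a field over `K`, `ξ_1, ..., ξ_m` elements of `L` which are linearly
independent over `K` and `R` a subspace of `L` of dimension at least `m h`.  There are
`χ_1, ..., χ_h ∈ R` such that the `h m` products `χ_a ξ_t` are linearly independent over `K`.
-/

set_option autoImplicit false

namespace Pool.Agent.Q147.LG

open Module

section

variable {K F : Type*} [Field K] [Infinite K] [AddCommGroup F] [Module K F]

/-- linear independence is preserved by suitable perturbations -/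
theorem exists_perturb {n : ℕ} (a b : Fin n → F) (ha : LinearIndependent K a) :
    ∃ t : K, t ≠ 0 ∧ LinearIndependent K (fun i => a i + t • b i) := by
  classical
  obtain ⟨ψ, hψ⟩ := LinearMap.exists_leftInverse_of_injective
    (Fintype.linearCombination K a) (LinearMap.ker_eq_bot'.mpr fun d hd => by
      funext i
      rw [Fintype.linearCombination_apply] at hd
      exact Fintype.linearIndependent_iff.mp ha d hd i)
  let f : Module.End K (Fin n → K) := ψ ∘ₗ Fintype.linearCombination K b
  have hfin : (Set.Finite {μ : K | f.HasEigenvalue μ}) := Module.End.finite_hasEigenvalue f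
  obtain ⟨μ, hμ⟩ := (hfin.union (Set.finite_singleton (0 : K))).exists_notMem
  have hμ0 : μ ≠ 0 := fun h => hμ (Or.inr h)
  have hμe : ¬ f.HasEigenvalue μ := fun h => hμ (Or.inl h)
  refine ⟨-μ⁻¹, neg_ne_zero.mpr (inv_ne_zero hμ0), ?_⟩
  rw [Fintype.linearIndependent_iff]
  intro d hd
  have h1 : ∑ i, d i • a i + (-μ⁻¹) • ∑ i, d i • b i = 0 := by
    rw [← hd, Finset.smul_sum, ← Finset.sum_add_distrib]
    refine Finset.sum_congr rfl fun i _ => ?_
    rw [smul_add, smul_comm]
  have h2 : ψ (∑ i, d i • a i) = d := by
    have := LinearMap.congr_fun hψ d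
    simpa [Fintype.linearCombination_apply] using this
  have h3 : f d = ψ (∑ i, d i • b i) := by
    simp [f, Fintype.linearCombination_apply]
  have h4 : d + (-μ⁻¹) • f d = 0 := by
    calc d + (-μ⁻¹) • f d = ψ (∑ i, d i • a i) + (-μ⁻¹) • ψ (∑ i, d i • b i) := by rw [h2, h3]
      _ = ψ (∑ i, d i • a i + (-μ⁻¹) • ∑ i, d i • b i) := by rw [map_add, map_smul]
      _ = 0 := by rw [h1, map_zero]
  have h5 : f d = μ • d := by
    have h6 : d = μ⁻¹ • f d := by
      rw [neg_smul] at h4
      exact (add_neg_eq_zero.mp h4)
    rw [h6, smul_smul, mul_inv_cancel₀ hμ0, one_smul]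
    rw [← h6]
  have h6 : d = 0 := by
    by_contra hd0
    exact hμe (Module.End.hasEigenvalue_of_hasEigenvector ⟨Module.End.mem_eigenspace_iff.mpr h5, hd0⟩)
  intro i
  rw [h6]
  rfl

/-- **Spaces of tuples which contain an independent one.** -/
theorem exists_indep {E : Type*} [AddCommGroup E] [Module K E] {m : ℕ} (T : E →ₗ[K] (Fin m → F))
    (hT : ∀ c : Fin m → K, c ≠ 0 → ∀ S : Submodule K F, FiniteDimensional K S → finrank K S < m →
      ∃ y : E, ∑ t, c t • T y t ∉ S) :
    ∃ x, LinearIndependent K (T x) := by
  classical
  have hbdd : ∀ x, finrank K (Submodule.span K (Set.range (T x))) ≤ m := by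
    intro x
    have := finrank_range_le_card (R := K) (T x)
    rwa [Fintype.card_fin] at this
  obtain ⟨x, hx⟩ : ∃ x, ∀ y, finrank K (Submodule.span K (Set.range (T y))) ≤
      finrank K (Submodule.span K (Set.range (T x))) := by
    by_contra hcon
    push Not at hcon
    have : ∀ k : ℕ, ∃ x, k ≤ finrank K (Submodule.span K (Set.range (T x))) := by
      intro k
      induction k with
      | zero => exact ⟨0, Nat.zero_le _⟩
      | succ k ih =>
        obtain ⟨x, hx⟩ := ih
        obtain ⟨y, hy⟩ := hcon x
        exact ⟨y, by omega⟩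
    obtain ⟨x, hx⟩ := this (m + 1)
    have := hbdd x
    omega
  refine ⟨x, ?_⟩
  by_contra hdep
  rw [Fintype.linearIndependent_iff] at hdep
  push Not at hdep
  obtain ⟨c, hc0, i, hi⟩ := hdep
  have hc : c ≠ 0 := fun h => hi (by rw [h]; rfl)
  set S := Submodule.span K (Set.range (T x)) with hS
  have hSfd : FiniteDimensional K S := FiniteDimensional.span_of_finite K (Set.finite_range _)
  have hSm : finrank K S < m := by
    refine lt_of_le_of_ne (hbdd x) fun h => ?_
    have h1 : LinearIndependent K (T x) := by
      rw [linearIndependent_iff_card_eq_finrank_span, Fintype.card_fin]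
      exact h.symm
    exact hi (Fintype.linearIndependent_iff.mp h1 c hc0 i)
  obtain ⟨y, hy⟩ := hT c hc S hSfd hSm
  set w := ∑ t, c t • T y t with hw
  obtain ⟨f, hfmem, hfspan, hfi⟩ := Submodule.exists_fun_fin_finrank_span_eq K (Set.range (T x))
  choose J hJ using hfmem
  have hcons : LinearIndependent K (Fin.cons w f : Fin (_ + 1) → F) := by
    rw [linearIndependent_finCons]
    refine ⟨hfi, ?_⟩
    rw [hfspan]
    exact hy
  obtain ⟨t, ht0, ht⟩ := exists_perturb (Fin.cons w f) (Fin.cons 0 fun i => T y (J i)) hcons
  have h1 : ∀ i, (Fin.cons w f : Fin (_ + 1) → F) i +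
      t • (Fin.cons 0 fun i => T y (J i) : Fin (_ + 1) → F) i ∈
      Submodule.span K (Set.range (T (x + t • y))) := by
    intro i
    refine Fin.cases ?_ (fun i => ?_) i
    · rw [Fin.cons_zero, Fin.cons_zero, smul_zero, add_zero]
      have h2 : w = t⁻¹ • ∑ s, c s • T (x + t • y) s := by
        have h3 : ∑ s, c s • T (x + t • y) s = t • w := by
          rw [map_add, map_smul]
          simp only [Pi.add_apply, Pi.smul_apply, smul_add, Finset.sum_add_distrib, hc0, zero_add]
          rw [hw, Finset.smul_sum]
          refine Finset.sum_congr rfl fun s _ => ?_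
          rw [smul_comm]
        rw [h3, smul_smul, inv_mul_cancel₀ ht0, one_smul]
      rw [h2]
      refine Submodule.smul_mem _ _ (Submodule.sum_mem _ fun s _ => Submodule.smul_mem _ _ ?_)
      exact Submodule.subset_span ⟨s, rfl⟩
    · rw [Fin.cons_succ, Fin.cons_succ, ← hJ i]
      refine Submodule.subset_span ⟨J i, ?_⟩
      rw [map_add, map_smul]
      rfl
  have hfd : FiniteDimensional K (Submodule.span K (Set.range (T (x + t • y)))) :=
    FiniteDimensional.span_of_finite K (Set.finite_range _)
  have h2 : finrank K S + 1 ≤ finrank K (Submodule.span K (Set.range (T (x + t • y)))) := by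
    have h3 : LinearIndependent K (fun i => (⟨_, h1 i⟩ :
        Submodule.span K (Set.range (T (x + t • y))))) := by
      apply LinearIndependent.of_comp (Submodule.subtype _)
      exact ht
    have := h3.fintype_card_le_finrank
    rwa [Fintype.card_fin] at this
  have := hx (x + t • y)
  omega

end

/-- **Independent products.** -/
theorem exists_mult {K L : Type*} [Field K] [Infinite K] [Field L] [Algebra K L] {m : ℕ}
    (ξ : Fin m → L) (hξ : LinearIndependent K ξ) (R : Submodule K L) [FiniteDimensional K R]
    (h : ℕ) (hR : m * h ≤ finrank K R) :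
    ∃ χ : Fin h → L, (∀ a, χ a ∈ R) ∧
      LinearIndependent K (fun p : Fin h × Fin m => χ p.1 * ξ p.2) := by
  classical
  induction h with
  | zero => exact ⟨fun a => a.elim0, fun a => a.elim0, linearIndependent_empty_type⟩
  | succ h ih =>
    obtain ⟨χ, hχR, hχ⟩ := ih (le_trans (Nat.mul_le_mul_left _ (Nat.le_succ _)) hR)
    set U := Submodule.span K (Set.range fun p : Fin h × Fin m => χ p.1 * ξ p.2) with hU
    have hUfd : FiniteDimensional K U := FiniteDimensional.span_of_finite K (Set.finite_range _)
    have hUr : finrank K U = m * h := by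
      rw [hU, finrank_span_eq_card hχ, Fintype.card_prod, Fintype.card_fin, Fintype.card_fin,
        mul_comm]
    let T : R →ₗ[K] (Fin m → L ⧸ U) := LinearMap.pi fun t =>
      U.mkQ ∘ₗ (LinearMap.mulRight K (ξ t)) ∘ₗ R.subtype
    have hTa : ∀ x t, T x t = U.mkQ ((x : L) * ξ t) := fun x t => rfl
    obtain ⟨x, hx⟩ : ∃ x, LinearIndependent K (T x) := by
      apply exists_indep
      intro c hc S hSfd hSm
      by_contra hcon
      push Not at hcon
      set v := ∑ t, c t • ξ t with hv
      have hv0 : v ≠ 0 := by
        intro h0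
        apply hc
        funext i
        exact Fintype.linearIndependent_iff.mp hξ c h0 i
      -- the map `x ↦ x v`
      let A : R →ₗ[K] L ⧸ U := U.mkQ ∘ₗ (LinearMap.mulRight K v) ∘ₗ R.subtype
      have hA : ∀ x, A x = ∑ t, c t • T x t := by
        intro x
        change U.mkQ ((x : L) * v) = _
        simp only [hTa]
        rw [hv, Finset.mul_sum, map_sum]
        refine Finset.sum_congr rfl fun t _ => ?_
        rw [mul_smul_comm, map_smul]
      have h1 := LinearMap.finrank_range_add_finrank_ker A
      have h2 : finrank K (LinearMap.range A) ≤ finrank K S := by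
        apply Submodule.finrank_mono
        rintro _ ⟨x, rfl⟩
        rw [hA]
        exact hcon x
      have h3 : finrank K (LinearMap.ker A) ≤ finrank K U := by
        let B : LinearMap.ker A →ₗ[K] U := LinearMap.codRestrict U
          ((LinearMap.mulRight K v) ∘ₗ R.subtype ∘ₗ (LinearMap.ker A).subtype) (by
            intro x
            have h4 : A (x : R) = 0 := LinearMap.mem_ker.mp x.2
            change U.mkQ (((x : R) : L) * v) = 0 at h4
            rwa [Submodule.mkQ_apply, Submodule.Quotient.mk_eq_zero] at h4)
        apply LinearMap.finrank_le_finrank_of_injective (f := B)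
        intro x y hxy
        have h4 : ((x : R) : L) * v = ((y : R) : L) * v := congrArg Subtype.val hxy
        exact Subtype.ext (Subtype.ext (mul_right_cancel₀ hv0 h4))
      have h4 : m * (h + 1) = m * h + m := by ring
      omega
    refine ⟨Fin.cons (x : L) χ, fun a => ?_, ?_⟩
    · refine Fin.cases ?_ (fun a => ?_) a
      · rw [Fin.cons_zero]; exact x.2
      · rw [Fin.cons_succ]; exact hχR a
    · rw [Fintype.linearIndependent_iff]
      intro d hd
      rw [Fintype.sum_prod_type, Fin.sum_univ_succ] at hd
      simp only [Fin.cons_zero, Fin.cons_succ] at hd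
      have h1 : ∑ t, d (0, t) • T x t = 0 := by
        have h2 := congrArg U.mkQ hd
        rw [map_add, map_zero] at h2
        have h3 : U.mkQ (∑ a : Fin h, ∑ t, d (a.succ, t) • (χ a * ξ t)) = 0 := by
          rw [Submodule.mkQ_apply, Submodule.Quotient.mk_eq_zero]
          refine Submodule.sum_mem _ fun a _ => Submodule.sum_mem _ fun t _ =>
            Submodule.smul_mem _ _ ?_
          exact Submodule.subset_span ⟨(a, t), rfl⟩
        rw [h3, add_zero, map_sum] at h2
        rw [← h2]
        refine Finset.sum_congr rfl fun t _ => ?_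
        rw [map_smul, hTa]
      have h2 : ∀ t, d (0, t) = 0 := Fintype.linearIndependent_iff.mp hx _ h1
      have h3 : ∑ p : Fin h × Fin m, d (p.1.succ, p.2) • (χ p.1 * ξ p.2) = 0 := by
        rw [Fintype.sum_prod_type]
        simpa only [h2, zero_smul, Finset.sum_const_zero, zero_add] using hd
      have h4 := Fintype.linearIndependent_iff.mp hχ _ h3
      rintro ⟨a, t⟩
      refine Fin.cases ?_ (fun a => ?_) a
      · exact h2 t
      · exact h4 (a, t)

end Pool.Agent.Q147.LG
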