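import Pool.Agent.Y787.HS.Lin
import Pool.Agent.Q147.LG.Inj

/-!
# Tangent vectors of families with parameters, multiplied by a space of numbers
-/

set_option autoImplicit false

namespace Pool.Agent.Q147.LG

open Filter Module Pool.Agent.Y787.GL Pool.Agent.Y787.FE Pool.Agent.Y787.HS
open Pool.Agent.Y787 (QC mem_QC HypC hyperplane hyperplane' Lt_one baker')

variable {Cc : Type} [Field Cc] [CharZero Cc] [IsAlgClosed Cc] [Uncountable Cc]
  {Lt : Submodule (QC Cc) Cc} [HypC Lt]

/-- Multipliers `χ` for tangent relations `∑ G i * w i + ∑ H l * c l = 0`: the products of the `χ a`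
and a system of generators `ξ` of the space of the `G i` are linearly independent, and the products
`χ a * H l` lie in a small space `Y`. -/
def Mul (M q : ℕ) {m p : ℕ} (G : Fin m → Cc) (H : Fin p → Cc) : Prop :=
  ∃ (h v : ℕ) (ξ : Fin v → Cc) (R : Fin m → Fin v → (QC Cc)) (χ : Fin h → Cc)
    (Y : Submodule (QC Cc) Cc), FiniteDimensional (QC Cc) Y ∧
    (∀ i, G i = ∑ t, (R i t : Cc) * ξ t) ∧
    LinearIndependent (QC Cc) (fun z : Fin h × Fin v => χ z.1 * ξ z.2) ∧
    (∀ a l, χ a * H l ∈ Y) ∧
    h * (finrank (QC Cc) (Rel fun _ : Fin 1 => G) * M) + h * v * (h * v - 1) +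
      finrank (QC Cc) Y < h * q

/-- **Tangent vectors times multipliers.** -/
theorem tangent_mul {M m p q : ℕ} (l' : Fin M → Cc) (hl : LinearIndependent (QC Cc) l')
    (hl' : ∀ j, l' j ∈ Lt) (G : Fin m → Cc) (H : Fin p → Cc) (hMul : Mul M q G H)
    (g : Fin q → Fin m → Fin M → (QC Cc)) (g' : Fin q → Fin p → (QC Cc))
    (hrel : ∀ k, ∑ i, G i * cmb l' (g k i) + ∑ l, H l * (g' k l : Cc) = 0)
    (hind : ∀ c : Fin q → (QC Cc), (∀ i j, ∑ k, c k * g k i j = 0) → c = 0) : False := by
  classical
  obtain ⟨h, v, ξ, R, χ, Y, hYfd, hG, hχ, hY, hlt⟩ := hMul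
  have hsum : ∀ (w : Fin m → Cc), ∑ t, ξ t * ∑ i, (R i t : Cc) * w i = ∑ i, G i * w i := by
    intro w
    simp only [hG, Finset.mul_sum, Finset.sum_mul]
    rw [Finset.sum_comm]
    refine Finset.sum_congr rfl fun i _ => Finset.sum_congr rfl fun t _ => ?_
    ring
  let T : (Fin q → (QC Cc)) →ₗ[(QC Cc)] (Fin v → Cc) :=
    Fintype.linearCombination (QC Cc) (fun k t => ∑ i, (R i t : Cc) * cmb l' (g k i))
  have hT : ∀ c t, T c t = ∑ i, (R i t : Cc) * cmb l' (fun j => ∑ k, c k * g k i j) := by
    intro c t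
    change (Fintype.linearCombination (QC Cc) (fun k t => ∑ i, (R i t : Cc) * cmb l' (g k i)) c) t = _
    rw [Fintype.linearCombination_apply, Finset.sum_apply]
    simp only [Pi.smul_apply]
    have h1 : ∀ k, c k • ∑ i, (R i t : Cc) * cmb l' (g k i) =
        ∑ i, (R i t : Cc) * ((c k : Cc) * cmb l' (g k i)) := by
      intro k
      rw [Algebra.smul_def, Finset.mul_sum]
      refine Finset.sum_congr rfl fun i _ => ?_
      change (c k : Cc) * _ = _
      ring
    simp only [h1]
    rw [Finset.sum_comm]
    refine Finset.sum_congr rfl fun i _ => ?_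
    rw [← Finset.mul_sum, cmb_sum]
  -- the value of a tangent vector
  have hval : ∀ c : Fin q → (QC Cc), ∑ t, ξ t * T c t =
      -∑ l, H l * ((∑ k, c k * g' k l : (QC Cc)) : Cc) := by
    intro c
    simp only [hT]
    rw [hsum, eq_neg_iff_add_eq_zero]
    have h8 : ∑ k, ((c k : (QC Cc)) : Cc) *
        (∑ i, G i * cmb l' (g k i) + ∑ l, H l * (g' k l : Cc)) = 0 := by
      refine Finset.sum_eq_zero fun k _ => ?_
      rw [hrel, mul_zero]
    rw [← h8]
    simp only [mul_add, Finset.sum_add_distrib]
    congr 1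
    · simp only [← cmb_sum, Finset.mul_sum]
      rw [Finset.sum_comm]
      refine Finset.sum_congr rfl fun i _ => Finset.sum_congr rfl fun k' _ => ?_
      ring
    · push_cast
      simp only [Finset.mul_sum]
      rw [Finset.sum_comm]
      refine Finset.sum_congr rfl fun i _ => Finset.sum_congr rfl fun k' _ => ?_
      ring
  have hTLt : ∀ c t, T c t ∈ Lt := by
    intro c t
    rw [hT]
    exact Submodule.sum_mem _ fun i _ => smul_Lt _ (cmb_mem_Lt' hl' _)
  have hrn := LinearMap.finrank_range_add_finrank_ker T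
  rw [Module.finrank_fintype_fun_eq_card, Fintype.card_fin] at hrn
  -- the kernel
  have hker : finrank (QC Cc) (LinearMap.ker T) ≤
      finrank (QC Cc) (Rel fun _ : Fin 1 => G) * M := by
    let C : (Fin q → (QC Cc)) →ₗ[(QC Cc)] (Fin M → Fin m → (QC Cc)) :=
      Fintype.linearCombination (QC Cc) (fun k j i => g k i j)
    have hC : ∀ c j i, C c j i = ∑ k, c k * g k i j := by
      intro c j i
      change (Fintype.linearCombination (QC Cc) (fun k j i => g k i j) c) j i = _
      rw [Fintype.linearCombination_apply, Finset.sum_apply, Finset.sum_apply]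
      rfl
    have hCR : ∀ c : LinearMap.ker T, ∀ j, C (c : Fin q → (QC Cc)) j ∈ Rel fun _ : Fin 1 => G := by
      intro c j
      have h5 : ∀ t, ∑ i, R i t * C (c : Fin q → (QC Cc)) j i = 0 := by
        intro t
        have h6 : T (c : Fin q → (QC Cc)) t = 0 := by
          have := c.2
          rw [LinearMap.mem_ker] at this
          rw [this]
          rfl
        rw [hT] at h6
        have h7 : ∑ i, (R i t : Cc) * cmb l' (fun j => ∑ k, (c : Fin q → (QC Cc)) k * g k i j) =
            cmb l' (fun m => ∑ i, R i t * ∑ k, (c : Fin q → (QC Cc)) k * g k i m) := by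
          simp only [cmb, map_sum, map_mul, Finset.mul_sum, Finset.sum_mul]
          rw [Finset.sum_comm]
          refine Finset.sum_congr rfl fun m _ => Finset.sum_congr rfl fun i _ => ?_
          refine Finset.sum_congr rfl fun k _ => ?_
          change algebraMap (QC Cc) Cc (R i t) * _ = _
          ring
        rw [h7] at h6
        have h8 := congrFun (cmb_eq_zero hl h6) j
        simp only [hC]
        exact h8
      rw [mem_Rel]
      intro _
      have h9 := hsum (fun i => (C (c : Fin q → (QC Cc)) j i : Cc))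
      have h10 : ∑ t, ξ t * ∑ i, (R i t : Cc) * (C (c : Fin q → (QC Cc)) j i : Cc) = 0 := by
        refine Finset.sum_eq_zero fun t _ => ?_
        have h6 := congrArg (fun q : (QC Cc) => (q : Cc)) (h5 t)
        push_cast at h6
        rw [h6, mul_zero]
      rw [h10] at h9
      rw [h9]
      refine Finset.sum_congr rfl fun i _ => ?_
      rw [mul_comm]
    let F : LinearMap.ker T →ₗ[(QC Cc)] (Fin M → (Rel fun _ : Fin 1 => G)) :=
      LinearMap.pi fun j => LinearMap.codRestrict (Rel fun _ : Fin 1 => G)
        ((LinearMap.proj j) ∘ₗ C ∘ₗ (LinearMap.ker T).subtype) (fun c => hCR c j)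
    have hF : Function.Injective F := by
      rw [injective_iff_map_eq_zero]
      intro c hc
      apply Subtype.ext
      refine hind _ fun i j => ?_
      have h5 := congrArg (fun x => ((x j : (Rel fun _ : Fin 1 => G)) : Fin m → (QC Cc)) i) hc
      change C (c : Fin q → (QC Cc)) j i = 0 at h5
      rw [hC] at h5
      exact h5
    have h5 := LinearMap.finrank_le_finrank_of_injective hF
    rw [Module.finrank_pi_fintype] at h5
    simp only [Finset.sum_const, Finset.card_univ, Fintype.card_fin, smul_eq_mul] at h5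
    rwa [mul_comm]
  -- the products of the multipliers with the image
  set e' := finrank (QC Cc) (LinearMap.range T) with he'
  let e := Module.finBasis (QC Cc) (LinearMap.range T)
  have hmem : ∀ k, ∃ c, T c = (e k : Fin v → Cc) := fun k => (e k).2
  choose cq hcq using hmem
  have hei : LinearIndependent (QC Cc) (fun k => (e k : Fin v → Cc)) :=
    e.linearIndependent.map' (LinearMap.range T).subtype (Submodule.ker_subtype _)
  let Φ : (Fin e' × Fin h → (QC Cc)) →ₗ[(QC Cc)] Cc :=
    Fintype.linearCombination (QC Cc) (fun z => χ z.2 * ∑ t, ξ t * (e z.1 : Fin v → Cc) t)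
  have hΦ : ∀ c, Φ c = ∑ z : Fin e' × Fin h, (c z : Cc) *
      (χ z.2 * ∑ t, ξ t * (e z.1 : Fin v → Cc) t) := by
    intro c
    change Fintype.linearCombination (QC Cc) _ c = _
    rw [Fintype.linearCombination_apply]
    refine Finset.sum_congr rfl fun z _ => ?_
    rw [Algebra.smul_def]
    rfl
  have hrΦ : finrank (QC Cc) (LinearMap.range Φ) ≤ finrank (QC Cc) Y := by
    apply Submodule.finrank_mono
    rintro _ ⟨c, rfl⟩
    rw [hΦ]
    refine Submodule.sum_mem _ fun z _ => ?_
    have h1 : χ z.2 * ∑ t, ξ t * (e z.1 : Fin v → Cc) t ∈ Y := by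
      rw [← hcq, hval, mul_neg, Finset.mul_sum]
      refine Submodule.neg_mem _ (Submodule.sum_mem _ fun l _ => ?_)
      have h2 := Y.smul_mem (∑ k, cq z.1 k * g' k l) (hY z.2 l)
      rw [Algebra.smul_def] at h2
      have h3 : χ z.2 * (H l * ((∑ k, cq z.1 k * g' k l : (QC Cc)) : Cc)) =
          algebraMap (QC Cc) Cc (∑ k, cq z.1 k * g' k l) * (χ z.2 * H l) := by
        change _ = ((∑ k, cq z.1 k * g' k l : (QC Cc)) : Cc) * _
        ring
      rw [h3]
      exact h2
    have h2 := Y.smul_mem (c z) h1
    rwa [Algebra.smul_def] at h2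
  have hkΦ : finrank (QC Cc) (LinearMap.ker Φ) ≤ h * v * (h * v - 1) := by
    let B := Module.finBasis (QC Cc) (LinearMap.ker Φ)
    let π : Fin (h * v) ≃ Fin h × Fin v := finProdFinEquiv.symm
    refine Pool.Agent.Y787.hyperplane (Lt := Lt) (h * v) _
      (fun s => χ (π s).1 * ξ (π s).2)
      (fun s k => ∑ k', ((B k : Fin e' × Fin h → (QC Cc)) (k', (π s).1) : Cc) *
        (e k' : Fin v → Cc) (π s).2) (hχ.comp π π.injective) ?_ ?_ ?_
    · intro s k
      refine Submodule.sum_mem _ fun k' _ => smul_Lt _ ?_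
      rw [← hcq]
      exact hTLt _ _
    · intro k
      have h1 : Φ (B k : Fin e' × Fin h → (QC Cc)) = 0 := LinearMap.mem_ker.1 (B k).2
      rw [hΦ, Fintype.sum_prod_type_right] at h1
      have h2 : ∑ s, χ (π s).1 * ξ (π s).2 * ∑ k',
          ((B k : Fin e' × Fin h → (QC Cc)) (k', (π s).1) : Cc) * (e k' : Fin v → Cc) (π s).2 =
          ∑ z : Fin h × Fin v, χ z.1 * ξ z.2 * ∑ k',
          ((B k : Fin e' × Fin h → (QC Cc)) (k', z.1) : Cc) * (e k' : Fin v → Cc) z.2 :=
        Equiv.sum_comp π (fun z : Fin h × Fin v => χ z.1 * ξ z.2 * ∑ k',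
          ((B k : Fin e' × Fin h → (QC Cc)) (k', z.1) : Cc) * (e k' : Fin v → Cc) z.2)
      rw [h2, Fintype.sum_prod_type, ← h1]
      refine Finset.sum_congr rfl fun a _ => ?_
      simp only [Finset.mul_sum]
      rw [Finset.sum_comm]
      refine Finset.sum_congr rfl fun k' _ => Finset.sum_congr rfl fun t _ => ?_
      ring
    · rw [Fintype.linearIndependent_iff]
      intro d hd
      have h1 : ∀ a k', ∑ k, d k * (B k : Fin e' × Fin h → (QC Cc)) (k', a) = 0 := by
        intro a
        refine Fintype.linearIndependent_iff.mp hei _ ?_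
        funext t
        have h2 := congrFun hd (π.symm (a, t))
        simp only [Finset.sum_apply, Pi.smul_apply, Pi.zero_apply, Equiv.apply_symm_apply] at h2 ⊢
        rw [← h2]
        simp only [Algebra.smul_def, Finset.mul_sum, Finset.sum_mul, map_sum, map_mul]
        rw [Finset.sum_comm]
        refine Finset.sum_congr rfl fun k _ => Finset.sum_congr rfl fun k' _ => ?_
        change _ = algebraMap (QC Cc) Cc (d k) *
          (algebraMap (QC Cc) Cc ((B k : Fin e' × Fin h → (QC Cc)) (k', a)) * _)
        ring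
      have h3 : ∑ k, d k • B k = 0 := by
        apply Subtype.ext
        rw [Submodule.coe_sum]
        funext z
        obtain ⟨k', a⟩ := z
        rw [Finset.sum_apply]
        exact h1 a k'
      exact Fintype.linearIndependent_iff.mp B.linearIndependent d h3
  have hrn2 := LinearMap.finrank_range_add_finrank_ker Φ
  rw [Module.finrank_fintype_fun_eq_card, Fintype.card_prod, Fintype.card_fin, Fintype.card_fin]
    at hrn2
  have h1 : e' * h + h * finrank (QC Cc) (LinearMap.ker T) = h * q := by
    have h0 : h * (e' + finrank (QC Cc) (LinearMap.ker T)) = h * q := congrArg (fun n => h * n) hrn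
    rw [← h0]; ring
  have h2 : h * finrank (QC Cc) (LinearMap.ker T) ≤
      h * (finrank (QC Cc) (Rel fun _ : Fin 1 => G) * M) := Nat.mul_le_mul_left _ hker
  omega

end Pool.Agent.Q147.LG
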