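import Pool.Agent.Y787.HS.Sys
import Pool.Agent.Q147.LG.Tan

/-!
# Families of points with coordinates linear forms in logarithms, with multipliers
-/

set_option autoImplicit false

namespace Pool.Agent.Q147.LG

open Filter Module Pool.Agent.Y787.GL Pool.Agent.Y787.FE Pool.Agent.Y787.HS
open Pool.Agent.Y787 (QC mem_QC HypC hyperplane hyperplane' Lt_one baker')

variable {Cc : Type} [Field Cc] [CharZero Cc] [IsAlgClosed Cc] [Uncountable Cc]
  {Lt : Submodule (QC Cc) Cc} [HypC Lt]

/-- the universal combination of the polynomials `F j` -/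
noncomputable def uni {m p : ℕ} (F : Fin p → MvPolynomial (Fin m) Cc) :
    MvPolynomial (Fin m ⊕ Fin p) Cc :=
  ∑ j, MvPolynomial.X (Sum.inr j) * MvPolynomial.rename Sum.inl (F j)

theorem eval_inl {M m p : ℕ} (l' : Fin M → Cc) (b : Fin m → Fin M → (QC Cc))
    (c : Fin p → (QC Cc)) (g : MvPolynomial (Fin m) Cc) :
    MvPolynomial.eval (pt l' b c) (MvPolynomial.rename Sum.inl g) =
      MvPolynomial.eval (yy l' b) g := by
  rw [MvPolynomial.eval_rename]
  rfl

theorem eval_X {M m p : ℕ} (l' : Fin M → Cc) (b : Fin m → Fin M → (QC Cc))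
    (c : Fin p → (QC Cc)) (l : Fin p) :
    MvPolynomial.eval (pt l' b c) (MvPolynomial.X (Sum.inr l)) = (c l : Cc) := by
  rw [MvPolynomial.eval_X]
  rfl

theorem eval_uni {M m p : ℕ} (l' : Fin M → Cc) (b : Fin m → Fin M → (QC Cc))
    (c : Fin p → (QC Cc)) (F : Fin p → MvPolynomial (Fin m) Cc) :
    MvPolynomial.eval (pt l' b c) (uni F) = ∑ j, (c j : Cc) * MvPolynomial.eval (yy l' b) (F j) := by
  rw [uni, map_sum]
  refine Finset.sum_congr rfl fun j _ => ?_
  rw [map_mul, eval_X, eval_inl]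

theorem eval_pderiv_inl {M m p : ℕ} (l' : Fin M → Cc) (b : Fin m → Fin M → (QC Cc))
    (c : Fin p → (QC Cc)) (F : Fin p → MvPolynomial (Fin m) Cc) (i : Fin m) :
    MvPolynomial.eval (pt l' b c) (MvPolynomial.pderiv (Sum.inl i) (uni F)) =
      ∑ j, (c j : Cc) * MvPolynomial.eval (yy l' b) (MvPolynomial.pderiv i (F j)) := by
  rw [uni, map_sum, map_sum]
  refine Finset.sum_congr rfl fun j _ => ?_
  rw [MvPolynomial.pderiv_mul, MvPolynomial.pderiv_X_of_ne (by simp), zero_mul, zero_add,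
    MvPolynomial.pderiv_rename Sum.inl_injective, map_mul, eval_X, eval_inl]

theorem eval_pderiv_inr {M m p : ℕ} (l' : Fin M → Cc) (b : Fin m → Fin M → (QC Cc))
    (c : Fin p → (QC Cc)) (F : Fin p → MvPolynomial (Fin m) Cc) (l : Fin p) :
    MvPolynomial.eval (pt l' b c) (MvPolynomial.pderiv (Sum.inr l) (uni F)) =
      MvPolynomial.eval (yy l' b) (F l) := by
  classical
  rw [uni, map_sum, map_sum, Finset.sum_eq_single l]
  · rw [MvPolynomial.pderiv_mul, MvPolynomial.pderiv_X_self, one_mul, map_add, eval_inl, map_mul]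
    have h1 : MvPolynomial.pderiv (Sum.inr l) (MvPolynomial.rename
        (Sum.inl : Fin m → Fin m ⊕ Fin p) (F l)) = 0 := by
      apply MvPolynomial.pderiv_eq_zero_of_notMem_vars
      intro h
      have h2 := MvPolynomial.vars_rename _ _ h
      rw [Finset.mem_image] at h2
      obtain ⟨a, -, ha⟩ := h2
      exact absurd ha (by simp)
    rw [h1, map_zero, mul_zero, add_zero]
  · intro j _ hj
    have h1 : MvPolynomial.pderiv (Sum.inr l) (MvPolynomial.rename
        (Sum.inl : Fin m → Fin m ⊕ Fin p) (F j)) = 0 := by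
      apply MvPolynomial.pderiv_eq_zero_of_notMem_vars
      intro h
      have h2 := MvPolynomial.vars_rename _ _ h
      rw [Finset.mem_image] at h2
      obtain ⟨a, -, ha⟩ := h2
      exact absurd ha (by simp)
    rw [MvPolynomial.pderiv_mul, MvPolynomial.pderiv_X_of_ne (by
      intro h; exact hj (Sum.inr_injective h)), h1, zero_mul, mul_zero, add_zero, map_zero]
  · intro h; exact absurd (Finset.mem_univ l) h

/-- **Master theorem with multipliers.** -/
theorem master_mul {M m p q : ℕ} (l' : Fin M → Cc) (hl : LinearIndependent (QC Cc) l')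
    (hl' : ∀ j, l' j ∈ Lt) (F : Fin p → MvPolynomial (Fin m) Cc)
    (φ : Fin q → ((Fin m × Fin M → (QC Cc)) →ₗ[(QC Cc)] (QC Cc))) :
    ∃ P : MvPolynomial (Fin q) (QC Cc), P ≠ 0 ∧
      ∀ (b : Fin m → Fin M → (QC Cc)) (c : Fin p → (QC Cc)),
        ∑ j, (c j : Cc) * MvPolynomial.eval (yy l' b) (F j) = 0 →
        Mul M q (fun i => ∑ j, (c j : Cc) *
          MvPolynomial.eval (yy l' b) (MvPolynomial.pderiv i (F j)))
          (fun j => MvPolynomial.eval (yy l' b) (F j)) →
        MvPolynomial.eval (fun k => φ k (fun z => b z.1 z.2)) P = 0 := by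
  classical
  by_contra hcon
  push Not at hcon
  set ι : Type := {x : (Fin m → Fin M → (QC Cc)) × (Fin p → (QC Cc)) //
    ∑ j, (x.2 j : Cc) * MvPolynomial.eval (yy l' x.1) (F j) = 0 ∧
    Mul M q (fun i => ∑ j, (x.2 j : Cc) *
          MvPolynomial.eval (yy l' x.1) (MvPolynomial.pderiv i (F j)))
          (fun j => MvPolynomial.eval (yy l' x.1) (F j))} with hι
  obtain ⟨𝒰, hgen⟩ := exists_ultra' (ι := ι)
    (fun x k => φ k (fun z => x.1.1 z.1 z.2)) (by
    intro P hP
    obtain ⟨b, c, h1, h2, h3⟩ := hcon P hP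
    exact ⟨⟨(b, c), h1, h2⟩, h3⟩)
  obtain ⟨D, g, hg, hD2, hDc, hφ⟩ := exists_system 𝒰
    (fun (x : ι) (z : Fin m × Fin M) => x.1.1 z.1 z.2) φ hgen
  set dy : Fin q → ι → Fin m ⊕ Fin p → Cc := fun k x =>
    Sum.elim (fun i => cmb l' (fun j => g k (fun x => x.1.1 i j) x))
      (fun l => (g k (fun x => x.1.2 l) x : Cc)) with hdy
  have hHD : ∀ k i, HD (D k) (fun x : ι => pt l' x.1.1 x.1.2 i) (fun x => dy k x i) := by
    intro k i
    cases i with
    | inl i => exact hDc l' k (fun x => x.1.1 i)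
    | inr l => exact hg k (fun x => x.1.2 l)
  have hrel : ∀ᶠ x in (𝒰 : Filter ι), ∀ k, ∑ i,
      MvPolynomial.eval (pt l' x.1.1 x.1.2) (MvPolynomial.pderiv i (uni F)) * dy k x i = 0 := by
    rw [Filter.eventually_all]
    intro k
    refine HD.congr (HDeval (hD2 k) (fun (x : ι) => pt l' x.1.1 x.1.2) (dy k) (hHD k) (uni F))
      (HDc (hD2 k) 0) (Filter.Eventually.of_forall fun x => ?_)
    rw [eval_uni]
    exact x.2.1
  have hind : ∀ᶠ x in (𝒰 : Filter ι), ∀ c : Fin q → (QC Cc),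
      (∀ i j, ∑ k, c k * g k (fun x => x.1.1 i j) x = 0) → c = 0 := by
    refine hφ.mono fun x hx c hc => ?_
    refine eq_zero_of_dual φ (fun k z => g k (fun x => x.1.1 z.1 z.2) x) hx c ?_
    rintro ⟨i, j⟩
    exact hc i j
  obtain ⟨x, hx1, hx2⟩ := (hrel.and hind).exists
  refine tangent_mul l' hl hl' _ _ x.2.2 (fun k i j => g k (fun x => x.1.1 i j) x)
    (fun k l => g k (fun x => x.1.2 l) x) ?_ hx2
  intro k
  have h1 := hx1 k
  rw [Fintype.sum_sum_type] at h1
  simp only [eval_pderiv_inl, eval_pderiv_inr] at h1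
  exact h1

end Pool.Agent.Q147.LG
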