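import Pool.Agent.Q147.LG.Pair
import Pool.Agent.Y787.PStrat

/-!
# `p`-adic logarithms
-/

set_option autoImplicit false

namespace Pool.Agent.Q147.LG

open Module Pool.Agent.Y787.HS
open Pool.Agent.Y787 (QC mem_QC HypC)
open Pool.Agent.W245.PB (IsIwasawaLog)
open Pool.Agent.W254.PA (LtE logs)

variable {p : ℕ} [hp : Fact p.Prime] {L : PadicAlgCl p → PadicAlgCl p}

/-- **Dimension.** -/
theorem dimP {m : ℕ} {q q' : ℕ → ℕ} {S : Set (Fin m → PadicAlgCl p)}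
    (h : Thin (LtE (logs L)) q S) (hq : ∀ M, q M ≤ q' M + 1)
    (W : Submodule (QC (PadicAlgCl p)) (PadicAlgCl p)) [FiniteDimensional (QC (PadicAlgCl p)) W]
    (hW : W ≤ LtE (logs L))
    (φ : Fin (q' (finrank (QC (PadicAlgCl p)) W) + 1) →
      ((Fin m → W) →ₗ[(QC (PadicAlgCl p))] (QC (PadicAlgCl p)))) :
    ∃ P : MvPolynomial (Fin (q' (finrank (QC (PadicAlgCl p)) W) + 1)) (QC (PadicAlgCl p)), P ≠ 0 ∧
      ∀ y : Fin m → W, (fun i => (y i : PadicAlgCl p)) ∈ S →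
        MvPolynomial.eval (fun k => φ k y) P = 0 :=
  (h.mono (q' := fun M => q' M + 1) (fun _ h => h) hq).dim W hW φ

/-- **Number of tuples.** -/
theorem countP (hL : IsIwasawaLog p L) {m N : ℕ} {q q' : ℕ → ℕ} {S : Set (Fin m → PadicAlgCl p)}
    (h : Thin (LtE (logs L)) q S) (hq : ∀ M, q M ≤ q' M + 1) (l : Fin N → PadicAlgCl p)
    (hl : ∀ j, ∃ α : PadicAlgCl p, α ≠ 0 ∧ IsAlgebraic ℚ α ∧ l j = L α)
    (hli : LinearIndependent ℚ l) :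
    ∃ κ : ℕ, ∀ H : ℕ, 1 ≤ H → Set.ncard {a : Fin m → Fin N → ℤ | (∀ i j, |a i j| ≤ H) ∧
      (fun i => ∑ j, (a i j : PadicAlgCl p) * l j) ∈ S} ≤ κ * H ^ q' N :=
  h.count l (Pool.Agent.Y787.li_of_cons l (Pool.Agent.Y787.li_consP hL l hl hli))
    (fun j => Pool.Agent.Y787.log_mem (hl j)) (hq N)

/-- number of `ℚ`-linearly independent tuples of logarithms -/
theorem countP' (hL : IsIwasawaLog p L) {m N : ℕ} {q q' : ℕ → ℕ} {A : Finset (Fin m →₀ ℕ)}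
    (h : Thin (LtE (logs L)) q (Dep A)) (hq : ∀ M, q M ≤ q' M + 1) (l : Fin N → PadicAlgCl p)
    (hl : ∀ j, ∃ α : PadicAlgCl p, α ≠ 0 ∧ IsAlgebraic ℚ α ∧ l j = L α)
    (hli : LinearIndependent ℚ l) :
    ∃ κ : ℕ, ∀ H : ℕ, 1 ≤ H → Set.ncard {a : Fin m → Fin N → ℤ | (∀ i j, |a i j| ≤ H) ∧
      LinearIndependent ℚ (fun i => ∑ j, (a i j : PadicAlgCl p) * l j) ∧
      RlA (QC (PadicAlgCl p)) A (fun i => ∑ j, (a i j : PadicAlgCl p) * l j)} ≤ κ * H ^ q' N := by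
  obtain ⟨κ, hκ⟩ := countP hL h hq l hl hli
  refine ⟨κ, fun H hH => le_trans (Set.ncard_le_ncard ?_ ?_) (hκ H hH)⟩
  · rintro a ⟨h1, h2, h3⟩
    exact ⟨h1, Pool.Agent.Y787.li_consP hL _ (fun i => Pool.Agent.Y787.log_comb hL l hl (a i)) h2, h3⟩
  · exact (box_finite m N H).subset fun a ha => ha.1

end Pool.Agent.Q147.LG
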