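import Pool.Agent.Q147.LG.Thin

/-!
# Pairs with relations of bounded degree
-/

set_option autoImplicit false

namespace Pool.Agent.Q147.LG

open Module MvPolynomial
open Pool.Agent.Y787 (QC mem_QC HypC hyperplane hyperplane' Lt_one baker')

/-- the exponents of degree at most `d` in two variables -/
noncomputable def tri (d : ℕ) : Finset (Fin 2 →₀ ℕ) :=
  Finset.image (fun p => Finsupp.single 0 p.1 + Finsupp.single 1 p.2)
    ((Finset.range (d + 1)).sigma fun i => Finset.range (d + 1 - i))

theorem mem_tri (d : ℕ) (s : Fin 2 →₀ ℕ) : s ∈ tri d ↔ s 0 + s 1 ≤ d := by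
  rw [tri, Finset.mem_image]
  constructor
  · rintro ⟨⟨i, j⟩, h, rfl⟩
    rw [Finset.mem_sigma, Finset.mem_range, Finset.mem_range] at h
    simp only at h
    simp only [Finsupp.add_apply, Finsupp.single_apply]
    simp
    omega
  · intro h
    refine ⟨⟨s 0, s 1⟩, ?_, ?_⟩
    · rw [Finset.mem_sigma, Finset.mem_range, Finset.mem_range]
      simp only
      omega
    · ext i
      simp only [Finsupp.add_apply, Finsupp.single_apply]
      fin_cases i
      · simp
      · simp

theorem card_tri (d : ℕ) : 2 * (tri d).card = (d + 1) * (d + 2) := by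
  rw [tri, Finset.card_image_of_injective, Finset.card_sigma]
  · simp only [Finset.card_range]
    induction d with
    | zero => simp
    | succ d ih =>
      rw [Finset.sum_range_succ']
      have h1 : ∀ i, d + 1 + 1 - (i + 1) = d + 1 - i := fun i => by omega
      simp only [h1]
      rw [mul_add, ih]
      simp only [Nat.sub_zero]
      ring
  · rintro ⟨i, j⟩ ⟨i', j'⟩ h
    have h0 := DFunLike.congr_fun h 0
    have h1 := DFunLike.congr_fun h 1
    simp only [Finsupp.add_apply, Finsupp.single_apply] at h0 h1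
    simp at h0 h1
    rw [h0, h1]

theorem low_tri (d : ℕ) : Low (tri d) := by
  intro s hs t ht
  rw [mem_tri] at hs ⊢
  have h0 := ht 0
  have h1 := ht 1
  omega

theorem add_tri (D d : ℕ) : ∀ s ∈ tri D, ∀ t ∈ tri d, s + t ∈ tri (D + d) := by
  intro s hs t ht
  rw [mem_tri] at hs ht ⊢
  rw [Finsupp.add_apply, Finsupp.add_apply]
  omega

theorem support_tri {K : Type} [Field K] {D : ℕ} (f : MvPolynomial (Fin 2) K)
    (hf : f.totalDegree ≤ D) : f.support ⊆ tri D := by
  intro s hs
  rw [mem_tri]
  have h1 := le_totalDegree hs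
  rw [Finsupp.sum_fintype _ _ (fun _ => rfl), Fin.sum_univ_two] at h1
  exact h1.trans hf

variable {Cc : Type} [Field Cc] [CharZero Cc] [IsAlgClosed Cc] [Uncountable Cc]
  {Lt : Submodule (QC Cc) Cc} [HypC Lt]

/-- **Pairs.** -/
theorem thin_pairs {D : ℕ} (hD : 1 ≤ D) :
    Thin Lt (fun _ => 4 * D + 1) (Dep (Cc := Cc) (tri D)) := by
  have hc := card_tri D
  rcases Nat.lt_or_ge D 5 with h5 | h5
  · refine (thin_dep_one (Lt := Lt) (m := 2) one_lt_two (tri D) (low_tri D) ?_).mono
      (fun _ h => h) fun M => ?_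
    · have : 0 < (D + 1) * (D + 2) := by positivity
      omega
    · simp only [Nat.sub_self, zero_mul, zero_add]
      interval_cases D <;> omega
  rcases Nat.lt_or_ge D 13 with h13 | h13
  · have hc2 := card_tri 2
    have hc3 := card_tri (D + 2)
    refine (thin_dep (Lt := Lt) (m := 2) (h := 3) (c := 4 * D + 1) one_lt_two (by norm_num)
      (tri D) (tri 2) (tri (D + 2)) (low_tri D) (low_tri 2) (add_tri D 2) (by omega) ?_
      (by omega)).mono (fun _ h => h) fun M => ?_
    · have h6 : (tri 2).card = 6 := by omega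
      rw [h6]
      interval_cases D <;> omega
    · simp
  rcases Nat.lt_or_ge D 18 with h18 | h18
  · have hc2 := card_tri 4
    have hc3 := card_tri (D + 4)
    refine (thin_dep (Lt := Lt) (m := 2) (h := 5) (c := 4 * D + 1) one_lt_two (by norm_num)
      (tri D) (tri 4) (tri (D + 4)) (low_tri D) (low_tri 4) (add_tri D 4) (by omega) ?_
      (by omega)).mono (fun _ h => h) fun M => ?_
    · have h6 : (tri 4).card = 15 := by omega
      rw [h6]
      interval_cases D <;> omega
    · simp
  obtain ⟨e, rfl⟩ : ∃ e, D = e + 18 := ⟨D - 18, by omega⟩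
  set h := (e + 18 + 2) / 3 with hh
  have hh1 : e + 18 ≤ 3 * h := by omega
  have hh2 : 3 * h ≤ e + 20 := by omega
  set d := Nat.sqrt (4 * h) with hd
  have hd1 : d * d ≤ 4 * h := Nat.sqrt_le _
  have hd2 : 4 * h < (d + 1) * (d + 1) := Nat.lt_succ_sqrt _
  have hd3 : 18 * d ≤ 7 * e + 95 := by
    by_contra hcon
    push Not at hcon
    nlinarith
  have hc2 := card_tri d
  have hc3 := card_tri (e + 18 + d)
  refine (thin_dep (Lt := Lt) (m := 2) (h := h) (c := 4 * (e + 18) + 1) one_lt_two (by omega)
    (tri (e + 18)) (tri d) (tri (e + 18 + d)) (low_tri _) (low_tri d) (add_tri _ d) ?_ ?_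
    ?_).mono (fun _ h => h) fun M => ?_
  · nlinarith
  · have h7 : 2 * ((tri (e + 18 + d)).card - (tri d).card) = (e + 18) * (e + 18 + 2 * d + 3) := by
      have h8 : (e + 18 + d + 1) * (e + 18 + d + 2) =
          (e + 18) * (e + 18 + 2 * d + 3) + (d + 1) * (d + 2) := by ring
      omega
    have h9 : (tri (e + 18 + d)).card - (tri d).card ≤ (4 * (e + 18) + 2 - 4 * h) * h := by
      obtain ⟨g, hg⟩ : ∃ g, 4 * (e + 18) + 2 - 4 * h = g := ⟨_, rfl⟩
      rw [hg]
      have hg1 : 3 * (e + 18 + 2 * d + 3) ≤ 2 * g := by omega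
      nlinarith
    have h10 : ((tri (e + 18 + d)).card - (tri d).card) / h ≤ 4 * (e + 18) + 2 - 4 * h :=
      (Nat.div_le_div_right h9).trans (le_of_eq (Nat.mul_div_cancel _ (by omega)))
    omega
  · have h7 : (d + 1) * (d + 2) = d * d + 3 * d + 2 := by ring
    omega
  · simp

end Pool.Agent.Q147.LG
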