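import Pool.Agent.Y787.HS.Strat
import Pool.Agent.Q147.LG.Inj

/-!
# Relations with exponents in a given finite set
-/

set_option autoImplicit false

namespace Pool.Agent.Q147.LG

open MvPolynomial

section

variable {Cc : Type} [Field Cc] {K : Type} [Field K] [Algebra K Cc]

/-- The numbers `z i` satisfy a nontrivial polynomial relation over `K` with exponents in `A`. -/
def RlA (K : Type) [Field K] [Algebra K Cc] {σ : Type} (A : Finset (σ →₀ ℕ)) (z : σ → Cc) : Prop :=
  ∃ f : MvPolynomial σ K, f ≠ 0 ∧ f.support ⊆ A ∧ aeval z f = 0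

/-- the value of a monomial -/
noncomputable def mv (K : Type) [Field K] [Algebra K Cc] {σ : Type} (z : σ → Cc) (s : σ →₀ ℕ) : Cc :=
  aeval z (monomial s (1 : K))

theorem mv_mul {σ : Type} (z : σ → Cc) (s t : σ →₀ ℕ) : mv K z s * mv K z t = mv K z (s + t) := by
  rw [mv, mv, mv, ← map_mul, monomial_mul, one_mul]

theorem mv_zero {σ : Type} (z : σ → Cc) : mv K z 0 = 1 := by
  rw [mv]
  have : (monomial (0 : σ →₀ ℕ) (1 : K)) = 1 := rfl
  rw [this, map_one]

/-- the space of the values of the polynomials with exponents in `A` -/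
noncomputable def vals (K : Type) [Field K] [Algebra K Cc] {σ : Type} (z : σ → Cc)
    (A : Finset (σ →₀ ℕ)) : Submodule K Cc :=
  Submodule.span K (Set.range fun s : A => mv K z (s : σ →₀ ℕ))

instance {σ : Type} (z : σ → Cc) (A : Finset (σ →₀ ℕ)) : FiniteDimensional K (vals K z A) :=
  FiniteDimensional.span_of_finite K (Set.finite_range _)

/-- the polynomial with given coefficients -/
noncomputable def pol {σ : Type} (A : Finset (σ →₀ ℕ)) : (A → K) →ₗ[K] MvPolynomial σ K :=
  Fintype.linearCombination K (fun s : A => monomial (s : σ →₀ ℕ) (1 : K))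

theorem pol_apply {σ : Type} (A : Finset (σ →₀ ℕ)) (c : A → K) :
    pol A c = ∑ s : A, monomial (s : σ →₀ ℕ) (c s) := by
  change Fintype.linearCombination K _ c = _
  rw [Fintype.linearCombination_apply]
  refine Finset.sum_congr rfl fun s _ => ?_
  rw [smul_monomial, smul_eq_mul, mul_one]

theorem coeff_pol {σ : Type} (A : Finset (σ →₀ ℕ)) (c : A → K) (s : A) :
    coeff (s : σ →₀ ℕ) (pol A c) = c s := by
  classical
  rw [pol_apply, coeff_sum, Finset.sum_eq_single s]
  · rw [coeff_monomial, if_pos rfl]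
  · intro t _ ht
    rw [coeff_monomial, if_neg fun h => ht (Subtype.ext h)]
  · intro h; exact absurd (Finset.mem_univ s) h

theorem support_pol {σ : Type} (A : Finset (σ →₀ ℕ)) (c : A → K) : (pol A c).support ⊆ A := by
  classical
  intro s hs
  rw [mem_support_iff, pol_apply, coeff_sum] at hs
  obtain ⟨t, -, ht⟩ := Finset.exists_ne_zero_of_sum_ne_zero hs
  rw [coeff_monomial] at ht
  by_cases h : (t : σ →₀ ℕ) = s
  · rw [← h]; exact t.2
  · rw [if_neg h] at ht; exact absurd rfl ht

theorem aeval_pol {σ : Type} (z : σ → Cc) (A : Finset (σ →₀ ℕ)) (c : A → K) :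
    aeval z (pol A c) = ∑ s : A, c s • mv K z s := by
  rw [pol_apply, map_sum]
  refine Finset.sum_congr rfl fun s _ => ?_
  rw [mv, ← map_smul, smul_monomial, smul_eq_mul, mul_one]

theorem pol_coeff {σ : Type} (A : Finset (σ →₀ ℕ)) (f : MvPolynomial σ K) (hf : f.support ⊆ A) :
    pol A (fun s => coeff (s : σ →₀ ℕ) f) = f := by
  classical
  ext s
  by_cases hs : s ∈ A
  · exact coeff_pol A _ ⟨s, hs⟩
  · have h1 : coeff s f = 0 := by
      by_contra h
      exact hs (hf (mem_support_iff.2 h))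
    have h2 : coeff s (pol A fun s => coeff (s : σ →₀ ℕ) f) = 0 := by
      by_contra h
      exact hs (support_pol A _ (mem_support_iff.2 h))
    rw [h1, h2]

theorem li_of_not {σ : Type} (z : σ → Cc) (A : Finset (σ →₀ ℕ)) (h : ¬ RlA K A z) :
    LinearIndependent K (fun s : A => mv K z (s : σ →₀ ℕ)) := by
  rw [Fintype.linearIndependent_iff]
  intro c hc s
  rw [← aeval_pol] at hc
  have h1 : pol A c = 0 := by
    by_contra h0
    exact h ⟨_, h0, support_pol A c, hc⟩
  rw [← coeff_pol A c s, h1, coeff_zero]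

theorem finrank_vals_of_not {σ : Type} (z : σ → Cc) (A : Finset (σ →₀ ℕ)) (h : ¬ RlA K A z) :
    Module.finrank K (vals K z A) = A.card := by
  rw [vals, finrank_span_eq_card (li_of_not z A h), Fintype.card_coe]

/-- multiples of a relation -/
theorem finrank_vals_le {σ : Type} (z : σ → Cc) (A B E : Finset (σ →₀ ℕ))
    (hE : ∀ s ∈ A, ∀ t ∈ B, s + t ∈ E) (f : MvPolynomial σ K)
    (hf0 : f ≠ 0) (hfA : f.support ⊆ A) (hf : aeval z f = 0) :
    Module.finrank K (vals K z E) + B.card ≤ E.card := by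
  classical
  let Λ : (E → K) →ₗ[K] Cc :=
    Fintype.linearCombination K (fun s : E => mv K z (s : σ →₀ ℕ))
  have hr : LinearMap.range Λ = vals K z E := Fintype.range_linearCombination K _
  have hΛ : ∀ c, Λ c = aeval z (pol E c) := by
    intro c
    rw [aeval_pol]
    exact Fintype.linearCombination_apply K _ c
  have h1 := LinearMap.finrank_range_add_finrank_ker Λ
  rw [hr, Module.finrank_fintype_fun_eq_card, Fintype.card_coe] at h1
  have hsupp : ∀ c : B → K, (f * pol B c).support ⊆ E := by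
    intro c s hs
    obtain ⟨a, ha, b, hb, hab⟩ := Finset.mem_add.1 (support_mul f (pol B c) hs)
    rw [← hab]
    exact hE a (hfA ha) b (support_pol B c hb)
  let G : (B → K) →ₗ[K] (E → K) :=
    { toFun := fun c s => coeff (s : σ →₀ ℕ) (f * pol B c)
      map_add' := by
        intro c d
        funext s
        rw [map_add, mul_add, coeff_add]
        rfl
      map_smul' := by
        intro a c
        funext s
        rw [map_smul, mul_smul_comm, coeff_smul]
        rfl }
  have hG : ∀ c, pol E (G c) = f * pol B c := fun c =>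
    pol_coeff E (f * pol B c) (hsupp c)
  have hGk : ∀ c, G c ∈ LinearMap.ker Λ := by
    intro c
    rw [LinearMap.mem_ker, hΛ, hG, map_mul, hf, zero_mul]
  let G' : (B → K) →ₗ[K] LinearMap.ker Λ := LinearMap.codRestrict _ G hGk
  have hinj : Function.Injective G' := by
    rw [injective_iff_map_eq_zero]
    intro c hc
    have h2 : G c = 0 := congrArg Subtype.val hc
    have h3 : f * pol B c = 0 := by rw [← hG, h2, map_zero]
    have h4 : pol B c = 0 := (mul_eq_zero.1 h3).resolve_left hf0
    funext s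
    rw [← coeff_pol B c s, h4, coeff_zero]
    rfl
  have h2 := LinearMap.finrank_le_finrank_of_injective hinj
  rw [Module.finrank_fintype_fun_eq_card, Fintype.card_coe] at h2
  omega

/-- `A` is closed under the operations `s ↦ s - e_i` -/
def Low {σ : Type} (A : Finset (σ →₀ ℕ)) : Prop := ∀ s ∈ A, ∀ t ≤ s, t ∈ A

theorem support_dir {σ : Type} [Fintype σ] {A : Finset (σ →₀ ℕ)} (hA : Low A)
    (f : MvPolynomial σ K) (hf : f.support ⊆ A) (v : σ → K) :
    (∑ i, C (v i) * pderiv i f).support ⊆ A := by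
  classical
  intro s hs
  rw [mem_support_iff, coeff_sum] at hs
  obtain ⟨i, -, hi⟩ := Finset.exists_ne_zero_of_sum_ne_zero hs
  rw [coeff_C_mul, coeff_pderiv] at hi
  have h2 : coeff (s + Finsupp.single i 1) f ≠ 0 :=
    left_ne_zero_of_mul (right_ne_zero_of_mul hi)
  exact hA _ (hf (mem_support_iff.2 h2)) _ le_self_add

theorem exists_minA {σ : Type} {A : Finset (σ →₀ ℕ)} (z : σ → Cc) (h : RlA K A z) :
    ∃ f : MvPolynomial σ K, f ≠ 0 ∧ f.support ⊆ A ∧ aeval z f = 0 ∧
      ∀ g : MvPolynomial σ K, g ≠ 0 → g.support ⊆ A → aeval z g = 0 →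
        f.totalDegree ≤ g.totalDegree := by
  classical
  have hex : ∃ d, ∃ f : MvPolynomial σ K, f ≠ 0 ∧ f.support ⊆ A ∧ f.totalDegree = d ∧
      aeval z f = 0 := by
    obtain ⟨f, h1, h2, h3⟩ := h
    exact ⟨_, f, h1, h2, rfl, h3⟩
  obtain ⟨f, h1, h2, h3, h4⟩ := Nat.find_spec hex
  refine ⟨f, h1, h2, h4, fun g hg1 hg2 hg3 => ?_⟩
  rw [h3]
  exact Nat.find_min' hex ⟨g, hg1, hg2, rfl, hg3⟩

theorem totalDegree_le_of_support {σ : Type} {A : Finset (σ →₀ ℕ)} {D : ℕ}
    (hD : ∀ s ∈ A, s.degree ≤ D) (f : MvPolynomial σ K) (hf : f.support ⊆ A) :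
    f.totalDegree ≤ D := by
  refine Finset.sup_le fun s hs => ?_
  exact hD s (hf hs)

end

end Pool.Agent.Q147.LG
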