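import Pool.Agent.Q147.LG.Mas
import Pool.Agent.Q147.LG.Supp

/-!
# Relations with exponents in a given set: dimension, with multipliers
-/

set_option autoImplicit false

namespace Pool.Agent.Q147.LG

open Filter Module Pool.Agent.Y787.GL Pool.Agent.Y787.FE Pool.Agent.Y787.HS
open Pool.Agent.Y787 (QC mem_QC HypC hyperplane hyperplane' Lt_one baker')

variable {Cc : Type} [Field Cc] [CharZero Cc] [IsAlgClosed Cc] [Uncountable Cc]
  {Lt : Submodule (QC Cc) Cc} [HypC Lt]

/-- independent generators -/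
theorem exists_gens {m : ℕ} (G : Fin m → Cc) : ∃ (v : ℕ) (ξ : Fin v → Cc)
    (R : Fin m → Fin v → (QC Cc)), v ≤ m ∧ LinearIndependent (QC Cc) ξ ∧
      ∀ i, G i = ∑ t, (R i t : Cc) * ξ t := by
  classical
  set S := Submodule.span (QC Cc) (Set.range G) with hS
  have hfd : FiniteDimensional (QC Cc) S := FiniteDimensional.span_of_finite _ (Set.finite_range _)
  let b := Module.finBasis (QC Cc) S
  have hmem : ∀ i, G i ∈ S := fun i => Submodule.subset_span ⟨i, rfl⟩
  refine ⟨finrank (QC Cc) S, fun t => (b t : Cc), fun i t => b.repr ⟨G i, hmem i⟩ t, ?_, ?_, ?_⟩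
  · have := finrank_range_le_card (R := (QC Cc)) G
    rwa [Fintype.card_fin] at this
  · exact b.linearIndependent.map' S.subtype (Submodule.ker_subtype _)
  · intro i
    have h1 := congrArg Subtype.val (b.sum_repr ⟨G i, hmem i⟩)
    rw [Submodule.coe_sum] at h1
    conv_lhs => rw [show G i = ((⟨G i, hmem i⟩ : S) : Cc) from rfl, ← h1]
    refine Finset.sum_congr rfl fun t _ => ?_
    rw [Submodule.coe_smul, Algebra.smul_def]
    rfl

/-- There are many multipliers among the values of the polynomials with exponents in `B`. -/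
def Rich (m h : ℕ) {σ : Type} (B : Finset (σ →₀ ℕ)) (z : σ → Cc) : Prop :=
  ∀ (v : ℕ) (ξ : Fin v → Cc), v ≤ m → LinearIndependent (QC Cc) ξ →
    ∃ χ : Fin h → Cc, (∀ a, χ a ∈ vals (QC Cc) z B) ∧
      LinearIndependent (QC Cc) (fun p : Fin h × Fin v => χ p.1 * ξ p.2)

theorem rich_of_not {m h : ℕ} {σ : Type} (B : Finset (σ →₀ ℕ)) (z : σ → Cc)
    (hB : ¬ RlA (QC Cc) B z) (hmB : m * h ≤ B.card) : Rich m h B z := by
  intro v ξ hv hξ
  have hinf : Infinite (QC Cc) := inferInstance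
  refine exists_mult ξ hξ (vals (QC Cc) z B) h ?_
  rw [finrank_vals_of_not z B hB]
  exact le_trans (Nat.mul_le_mul_right _ hv) hmB

theorem rich_one {m : ℕ} {σ : Type} (z : σ → Cc) : Rich m 1 ({0} : Finset (σ →₀ ℕ)) z := by
  intro v ξ _ hξ
  refine ⟨fun _ => 1, fun _ => ?_, ?_⟩
  · rw [← mv_zero (K := (QC Cc)) z]
    exact Submodule.subset_span ⟨⟨0, Finset.mem_singleton_self _⟩, rfl⟩
  · simp only [one_mul]
    let e : Fin 1 × Fin v ≃ Fin v := Equiv.uniqueProd (Fin v) (Fin 1)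
    exact hξ.comp e e.injective

theorem vals_mul {σ : Type} {A B E : Finset (σ →₀ ℕ)} (hE : ∀ s ∈ A, ∀ t ∈ B, s + t ∈ E)
    (z : σ → Cc) {s : σ →₀ ℕ} (hs : s ∈ A) {u : Cc} (hu : u ∈ vals (QC Cc) z B) :
    u * mv (QC Cc) z s ∈ vals (QC Cc) z E := by
  have h1 : vals (QC Cc) z B ≤ (vals (QC Cc) z E).comap
      (LinearMap.mulRight (QC Cc) (mv (QC Cc) z s)) := by
    rw [vals, Submodule.span_le]
    rintro _ ⟨t, rfl⟩
    change mv (QC Cc) z t * mv (QC Cc) z s ∈ vals (QC Cc) z E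
    rw [mv_mul, add_comm]
    exact Submodule.subset_span ⟨⟨_, hE s hs t t.2⟩, rfl⟩
  exact h1 hu

/-- **Points with a relation, with multipliers.** -/
theorem rel_mul {M n m ρ h : ℕ} (hh : 0 < h) (A B E : Finset ((Fin n ⊕ Fin m) →₀ ℕ))
    (hE : ∀ s ∈ A, ∀ t ∈ B, s + t ∈ E) (l' : Fin M → Cc) (hl : LinearIndependent (QC Cc) l')
    (hl' : ∀ j, l' j ∈ Lt) (x : Fin n → Cc)
    (φ : Fin (ρ * M + m * (h * m - 1) + (E.card - B.card) / h + 1) →
      ((Fin m × Fin M → (QC Cc)) →ₗ[(QC Cc)] (QC Cc))) :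
    ∃ P : MvPolynomial (Fin (ρ * M + m * (h * m - 1) + (E.card - B.card) / h + 1)) (QC Cc),
      P ≠ 0 ∧ ∀ (b : Fin m → Fin M → (QC Cc)) (f : MvPolynomial (Fin n ⊕ Fin m) (QC Cc)), f ≠ 0 →
        f.support ⊆ A → MvPolynomial.aeval (Sum.elim x (yy l' b)) f = 0 →
        Rich m h B (Sum.elim x (yy l' b)) →
        finrank (QC Cc) (RelF (Sum.elim x (yy l' b)) f) ≤ ρ →
        MvPolynomial.eval (fun k => φ k (fun q => b q.1 q.2)) P = 0 := by
  classical
  let ε : Fin A.card ≃ A := A.equivFin.symm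
  let F : Fin A.card → MvPolynomial (Fin m) Cc := fun j =>
    Psi x (MvPolynomial.monomial (ε j : (Fin n ⊕ Fin m) →₀ ℕ) (1 : Cc))
  obtain ⟨P, hP1, hP2⟩ := master_mul l' hl hl' F φ
  refine ⟨P, hP1, fun b f hf0 hfA hf hR hrk => ?_⟩
  set z : Fin n ⊕ Fin m → Cc := Sum.elim x (yy l' b) with hz
  set c : Fin A.card → (QC Cc) := fun j => MvPolynomial.coeff (ε j : (Fin n ⊕ Fin m) →₀ ℕ) f with hc
  have hsum : f = ∑ j, MvPolynomial.C (c j) *
      MvPolynomial.monomial (ε j : (Fin n ⊕ Fin m) →₀ ℕ) (1 : (QC Cc)) := by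
    have h1 : f = ∑ s : A, MvPolynomial.C (MvPolynomial.coeff (s : (Fin n ⊕ Fin m) →₀ ℕ) f) *
        MvPolynomial.monomial (s : (Fin n ⊕ Fin m) →₀ ℕ) (1 : (QC Cc)) := by
      conv_lhs => rw [← pol_coeff A f hfA, pol_apply]
      refine Finset.sum_congr rfl fun s _ => ?_
      rw [MvPolynomial.C_mul_monomial, mul_one]
    conv_lhs => rw [h1]
    exact (Equiv.sum_comp ε (fun s : A =>
      MvPolynomial.C (MvPolynomial.coeff (s : (Fin n ⊕ Fin m) →₀ ℕ) f) *
      MvPolynomial.monomial (s : (Fin n ⊕ Fin m) →₀ ℕ) (1 : (QC Cc)))).symm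
  have hmap : MvPolynomial.map (algebraMap (QC Cc) Cc) f =
      ∑ j, MvPolynomial.C (c j : Cc) *
        MvPolynomial.monomial (ε j : (Fin n ⊕ Fin m) →₀ ℕ) (1 : Cc) := by
    conv_lhs => rw [hsum]
    rw [map_sum]
    refine Finset.sum_congr rfl fun j _ => ?_
    rw [map_mul, MvPolynomial.map_C, MvPolynomial.map_monomial, map_one]
    rfl
  have hFe : ∀ j, MvPolynomial.eval (yy l' b) (F j) =
      mv (QC Cc) z (ε j : (Fin n ⊕ Fin m) →₀ ℕ) := by
    intro j
    change MvPolynomial.eval (yy l' b) (Psi x _) = _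
    rw [eval_Psi, mv, ← eval_map_K, MvPolynomial.map_monomial, (algebraMap (QC Cc) Cc).map_one]
  have hG : ∀ i, ∑ j, (c j : Cc) * MvPolynomial.eval (yy l' b) (MvPolynomial.pderiv i (F j)) =
      MvPolynomial.aeval z (MvPolynomial.pderiv (Sum.inr i) f) := by
    intro i
    rw [← eval_map_K, ← MvPolynomial.pderiv_map, hmap, map_sum, map_sum]
    refine Finset.sum_congr rfl fun j _ => ?_
    rw [MvPolynomial.pderiv_C_mul, map_mul, MvPolynomial.eval_C]
    congr 1
    change MvPolynomial.eval _ (MvPolynomial.pderiv i (Psi x _)) = _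
    rw [pderiv_Psi, eval_Psi]
  refine hP2 b c ?_ ?_
  · rw [← hf, ← eval_map_K, hmap, map_sum]
    refine Finset.sum_congr rfl fun j _ => ?_
    rw [map_mul, MvPolynomial.eval_C]
    congr 1
    exact eval_Psi x _ _
  · obtain ⟨v, ξ, R, hv, hξ, hGR⟩ := exists_gens fun i => ∑ j, (c j : Cc) *
      MvPolynomial.eval (yy l' b) (MvPolynomial.pderiv i (F j))
    obtain ⟨χ, hχB, hχ⟩ := hR v ξ hv hξ
    refine ⟨h, v, ξ, R, χ, vals (QC Cc) z E, inferInstance, hGR, hχ, ?_, ?_⟩
    · intro a l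
      change χ a * MvPolynomial.eval (yy l' b) (F l) ∈ _
      rw [hFe]
      exact vals_mul hE z (ε l).2 (hχB a)
    · have h1 : (Rel fun (_ : Fin 1) i => ∑ j, (c j : Cc) *
          MvPolynomial.eval (yy l' b) (MvPolynomial.pderiv i (F j))) = RelF z f := by
        rw [RelF]
        congr 1
        funext _ i
        exact hG i
      rw [h1]
      have h2 := finrank_vals_le z A B E hE f hf0 hfA hf
      have h3 : finrank (QC Cc) (vals (QC Cc) z E) ≤ E.card - B.card := by omega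
      have h4 : h * (finrank (QC Cc) (RelF z f) * M) ≤ h * (ρ * M) :=
        Nat.mul_le_mul_left _ (Nat.mul_le_mul_right _ hrk)
      have h5 : h * v * (h * v - 1) ≤ h * (m * (h * m - 1)) := by
        rw [mul_assoc]
        refine Nat.mul_le_mul_left _ (Nat.mul_le_mul hv ?_)
        exact Nat.sub_le_sub_right (Nat.mul_le_mul_left _ hv) _
      have h6 := Nat.div_add_mod (E.card - B.card) h
      have h7 := Nat.mod_lt (E.card - B.card) hh
      have h8 : h * (ρ * M + m * (h * m - 1) + (E.card - B.card) / h + 1) =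
          h * (ρ * M) + h * (m * (h * m - 1)) + h * ((E.card - B.card) / h) + h := by ring
      omega

end Pool.Agent.Q147.LG
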