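import Pool.Agent.Q147.LG.Rel

/-!
# Relations with exponents in a given set
-/

set_option autoImplicit false

namespace Pool.Agent.Q147.LG

open Filter Module Pool.Agent.Y787.GL Pool.Agent.Y787.FE Pool.Agent.Y787.HS MvPolynomial
open Pool.Agent.TH519.GL Pool.Agent.TH519.HS
open Pool.Agent.Y787 (QC mem_QC HypC hyperplane hyperplane' Lt_one baker')

variable {Cc : Type} [Field Cc] [CharZero Cc] [IsAlgClosed Cc] [Uncountable Cc]
  {Lt : Submodule (QC Cc) Cc} [HypC Lt]

/-- `(x, y)` satisfies a relation with exponents in `A`, but `x` together with `s` independent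
linear combinations of the `y i` satisfies no relation of degree at most `D` -/
def StratA {n m : ℕ} (D s : ℕ) (A : Finset ((Fin n ⊕ Fin m) →₀ ℕ)) (x : Fin n → Cc)
    (y : Fin m → Cc) : Prop :=
  RlA (QC Cc) A (Sum.elim x y) ∧ ∀ u : Fin s → Fin m → (QC Cc), LinearIndependent (QC Cc) u →
    ¬ RlK (QC Cc) D (Sum.elim x fun j => ∑ i, (u j i : Cc) * y i)

theorem rankA {n m s D : ℕ} {A : Finset ((Fin n ⊕ Fin m) →₀ ℕ)} (hA : Low A)
    (hAD : ∀ t ∈ A, t.degree ≤ D) (hs : s < m) (x : Fin n → Cc) (y : Fin m → Cc)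
    (hy : ∀ u : Fin s → Fin m → (QC Cc), LinearIndependent (QC Cc) u →
      ¬ RlK (QC Cc) D (Sum.elim x fun j => ∑ i, (u j i : Cc) * y i))
    (f : MvPolynomial (Fin n ⊕ Fin m) (QC Cc)) (hf0 : f ≠ 0) (hfA : f.support ⊆ A)
    (hf : MvPolynomial.aeval (Sum.elim x y) f = 0)
    (hmin : ∀ g : MvPolynomial (Fin n ⊕ Fin m) (QC Cc), g ≠ 0 → g.support ⊆ A →
      MvPolynomial.aeval (Sum.elim x y) g = 0 → f.totalDegree ≤ g.totalDegree) :
    finrank (QC Cc) (RelF (Sum.elim x y) f) ≤ m - 1 - s := by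
  classical
  by_contra hcon
  obtain ⟨u, w, hu, huw, hker⟩ := exists_forms hs.le (RelF (Sum.elim x y) f) (by omega)
  have hkey : ∀ i, ∑ k, C ((Pi.single i 1 : Fin m → (QC Cc)) k - ∑ j, u j i * w j k) *
      pderiv (Sum.inr k : Fin n ⊕ Fin m) f = 0 := by
    intro i
    set v : Fin m → (QC Cc) :=
      fun k => (Pi.single i 1 : Fin m → (QC Cc)) k - ∑ j, u j i * w j k with hv
    have h1 : v ∈ RelF (Sum.elim x y) f := by
      apply hker
      intro j
      simp only [hv, mul_sub, Finset.sum_sub_distrib]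
      have h2 : ∑ k, u j k * (Pi.single i 1 : Fin m → (QC Cc)) k = u j i := by
        rw [Finset.sum_eq_single i]
        · rw [Pi.single_eq_same, mul_one]
        · intro k _ hk
          rw [Pi.single_eq_of_ne hk, mul_zero]
        · intro h; exact absurd (Finset.mem_univ i) h
      have h3 : ∑ k, u j k * ∑ j', u j' i * w j' k = u j i := by
        have h4 : ∑ k, u j k * ∑ j', u j' i * w j' k = ∑ j', u j' i * ∑ k, u j k * w j' k := by
          simp only [Finset.mul_sum]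
          rw [Finset.sum_comm]
          refine Finset.sum_congr rfl fun j' _ => Finset.sum_congr rfl fun k _ => ?_
          ring
        rw [h4]
        simp only [huw]
        rw [Finset.sum_eq_single j]
        · rw [if_pos rfl, mul_one]
        · intro j' _ hj'
          rw [if_neg (Ne.symm hj'), mul_zero]
        · intro h; exact absurd (Finset.mem_univ j) h
      rw [h2, h3, sub_self]
    have h2 := h1 0
    by_contra h0
    set v' : Fin n ⊕ Fin m → (QC Cc) := Sum.elim (fun _ => 0) v with hv'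
    have hGv : ∑ k, C (v' k) * pderiv k f = ∑ k, C (v k) * pderiv (Sum.inr k : Fin n ⊕ Fin m) f := by
      rw [Fintype.sum_sum_type]
      simp only [hv', Sum.elim_inl, Sum.elim_inr, C_0, zero_mul, Finset.sum_const_zero, zero_add]
    have h3 : f.totalDegree ≤
        (∑ k, C (v k) * pderiv (Sum.inr k : Fin n ⊕ Fin m) f).totalDegree := by
      refine hmin _ h0 ?_ ?_
      · rw [← hGv]
        exact support_dir hA f hfA v'
      · rw [← h2, map_sum]
        refine Finset.sum_congr rfl fun k _ => ?_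
        rw [map_mul, algHom_C]
        rfl
    have h4 := deg_drop f v' (by rw [hGv]; exact h0)
    rw [hGv] at h4
    omega
  exact hy u hu (red_many x y f hf0 (totalDegree_le_of_support hAD f hfA) hf u w
    (red_inv' f u w hkey))

/-- the exponent in the dimension theorem -/
theorem stratA_coord {M n m s D h q : ℕ} (hs : s < m) (hh : 0 < h)
    (A B E : Finset ((Fin n ⊕ Fin m) →₀ ℕ)) (hA : Low A) (hB : Low B)
    (hAD : ∀ t ∈ A, t.degree ≤ D) (hBD : ∀ t ∈ B, t.degree ≤ D)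
    (hE : ∀ s ∈ A, ∀ t ∈ B, s + t ∈ E) (hmB : m * h ≤ B.card) (l' : Fin M → Cc)
    (hl : LinearIndependent (QC Cc) l') (hl' : ∀ j, l' j ∈ Lt) (x : Fin n → Cc)
    (hq1 : (m - 1 - s) * M + m * (h * m - 1) + (E.card - B.card) / h + 1 ≤ q)
    (hq2 : (m - 1 - s) * M + m * (m - 1) + B.card ≤ q)
    (φ : Fin q → ((Fin m × Fin M → (QC Cc)) →ₗ[(QC Cc)] (QC Cc))) :
    ∃ P : MvPolynomial (Fin q) (QC Cc),
      P ≠ 0 ∧ ∀ b : Fin m → Fin M → (QC Cc), StratA D s A x (yy l' b) →
        MvPolynomial.eval (fun k => φ k (fun q => b q.1 q.2)) P = 0 := by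
  classical
  have hBc : 0 < B.card := lt_of_lt_of_le (Nat.mul_pos (by omega) hh) hmB
  have hq2' : (m - 1 - s) * M + m * (1 * m - 1) + (B.card - ({0} :
      Finset ((Fin n ⊕ Fin m) →₀ ℕ)).card) / 1 + 1 ≤ q := by
    rw [Finset.card_singleton, Nat.div_one, one_mul]
    omega
  obtain ⟨P1, hP1, h1⟩ := rel_mul (ρ := m - 1 - s) hh A B E hE l' hl hl' x
    (fun k => φ (Fin.castLE hq1 k))
  obtain ⟨P2, hP2, h2⟩ := rel_mul (ρ := m - 1 - s) one_pos B {0} B (by
    intro s hs t ht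
    rw [Finset.mem_singleton.1 ht, add_zero]
    exact hs) l' hl hl' x (fun k => φ (Fin.castLE hq2' k))
  refine ⟨rename (Fin.castLE hq1) P1 * rename (Fin.castLE hq2') P2, ?_, fun b hy => ?_⟩
  · refine mul_ne_zero ?_ ?_
    · intro h
      apply hP1
      apply rename_injective _ (Fin.castLE_injective hq1)
      rw [h, map_zero]
    · intro h
      apply hP2
      apply rename_injective _ (Fin.castLE_injective hq2')
      rw [h, map_zero]
  · rw [map_mul, eval_rename, eval_rename]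
    by_cases hRB : RlA (QC Cc) B (Sum.elim x (yy l' b))
    · obtain ⟨f, hf0, hfB, hf, hmin⟩ := exists_minA _ hRB
      have := h2 b f hf0 hfB hf (rich_one _) (rankA hB hBD hs x _ hy.2 f hf0 hfB hf hmin)
      rw [show ((fun k => φ k fun q => b q.1 q.2) ∘ Fin.castLE hq2') =
        (fun k => φ (Fin.castLE hq2' k) fun q => b q.1 q.2) from rfl, this, mul_zero]
    · obtain ⟨f, hf0, hfA, hf, hmin⟩ := exists_minA _ hy.1
      have := h1 b f hf0 hfA hf (rich_of_not B _ hRB hmB)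
        (rankA hA hAD hs x _ hy.2 f hf0 hfA hf hmin)
      rw [show ((fun k => φ k fun q => b q.1 q.2) ∘ Fin.castLE hq1) =
        (fun k => φ (Fin.castLE hq1 k) fun q => b q.1 q.2) from rfl, this, zero_mul]

/-- **The dimension theorem.** -/
theorem stratA_dim (W : Submodule (QC Cc) Cc) [FiniteDimensional (QC Cc) W] (hW : W ≤ Lt)
    {n m s D h q : ℕ} (hs : s < m) (hh : 0 < h)
    (A B E : Finset ((Fin n ⊕ Fin m) →₀ ℕ)) (hA : Low A) (hB : Low B)
    (hAD : ∀ t ∈ A, t.degree ≤ D) (hBD : ∀ t ∈ B, t.degree ≤ D)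
    (hE : ∀ s ∈ A, ∀ t ∈ B, s + t ∈ E) (hmB : m * h ≤ B.card) (x : Fin n → Cc)
    (hq1 : (m - 1 - s) * finrank (QC Cc) W + m * (h * m - 1) + (E.card - B.card) / h + 1 ≤ q)
    (hq2 : (m - 1 - s) * finrank (QC Cc) W + m * (m - 1) + B.card ≤ q)
    (φ : Fin q → ((Fin m → W) →ₗ[(QC Cc)] (QC Cc))) :
    ∃ P : MvPolynomial (Fin q) (QC Cc), P ≠ 0 ∧ ∀ y : Fin m → W,
      StratA D s A x (fun i => (y i : Cc)) → MvPolynomial.eval (fun k => φ k y) P = 0 := by
  obtain ⟨P, h1, h2⟩ := stratA_coord (D := D) hs hh A B E hA hB hAD hBD hE hmB (bs W) (bs_li W)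
    (fun j => hW (Module.finBasis (QC Cc) W j).2) x hq1 hq2 (fun k => φ k ∘ₗ mkV m)
  refine ⟨P, h1, ?_⟩
  intro y hy
  have h3 : yy (bs W) (fun i j => (Module.finBasis (QC Cc) W).repr (y i) j) = fun i => (y i : Cc) := by
    funext i
    exact cmb_bs' W (y i)
  have h4 := h2 (fun i j => (Module.finBasis (QC Cc) W).repr (y i) j) (by
    rw [h3]
    exact hy)
  have h5 : mkV (K := (QC Cc)) (W := W) m (fun q => (Module.finBasis (QC Cc) W).repr (y q.1) q.2) =
      y := by
    funext i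
    exact (Module.finBasis (QC Cc) W).sum_repr (y i)
  simp only [LinearMap.comp_apply, h5] at h4
  exact h4

/-- **The counting theorem.** -/
theorem stratA_count {N : ℕ} (l : Fin N → Cc) (hl : LinearIndependent (QC Cc) l)
    (hl' : ∀ j, l j ∈ Lt) {n m s D h d : ℕ} (hs : s < m) (hh : 0 < h)
    (A B E : Finset ((Fin n ⊕ Fin m) →₀ ℕ)) (hA : Low A) (hB : Low B)
    (hAD : ∀ t ∈ A, t.degree ≤ D) (hBD : ∀ t ∈ B, t.degree ≤ D)
    (hE : ∀ s ∈ A, ∀ t ∈ B, s + t ∈ E) (hmB : m * h ≤ B.card) (x : Fin n → Cc)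
    (hq1 : (m - 1 - s) * N + m * (h * m - 1) + (E.card - B.card) / h ≤ d)
    (hq2 : (m - 1 - s) * N + m * (m - 1) + B.card ≤ d + 1) :
    ∃ κ : ℕ, ∀ H : ℕ, 1 ≤ H → Set.ncard {a : Fin m → Fin N → ℤ | (∀ i j, |a i j| ≤ H) ∧
      StratA D s A x (fun i => ∑ j, (a i j : Cc) * l j)} ≤ κ * H ^ d := by
  classical
  let T : Set (Fin m × Fin N → (QC Cc)) := {z | StratA D s A x (yy l fun i j => z (i, j))}
  obtain ⟨κ, hκ⟩ := count_gen (d := d) T (by
    intro φ
    obtain ⟨P, h1, h2⟩ := stratA_coord (D := D) hs hh A B E hA hB hAD hBD hE hmB l hl hl' x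
      (by omega) hq2 φ
    exact ⟨P, h1, fun z hz => h2 (fun i j => z (i, j)) hz⟩)
  refine ⟨κ, fun H hH => ?_⟩
  set V := {a : Fin m → Fin N → ℤ | (∀ i j, |a i j| ≤ H) ∧
      StratA D s A x (fun i => ∑ j, (a i j : Cc) * l j)} with hV
  have hfin : V.Finite := (box_finite m N H).subset fun a ha => ha.1
  rw [Set.ncard_eq_toFinset_card V hfin]
  let g : (Fin m → Fin N → ℤ) → (Fin m × Fin N → ℤ) := fun a p => a p.1 p.2
  have hg : Function.Injective g := by
    intro a a' h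
    funext i k
    exact congrFun h (i, k)
  rw [← Finset.card_image_of_injective _ hg]
  refine hκ H hH _ ?_
  intro c hc
  obtain ⟨a, ha, rfl⟩ := Finset.mem_image.1 hc
  rw [Set.Finite.mem_toFinset] at ha
  obtain ⟨ha1, ha2⟩ := ha
  refine ⟨fun p => ha1 _ _, ?_⟩
  change StratA D s A x (yy l fun i j => ((g a (i, j) : ℤ) : (QC Cc)))
  have h6 : (yy l fun i j => ((g a (i, j) : ℤ) : (QC Cc))) = fun i => ∑ k, (a i k : Cc) * l k := by
    funext i
    simp only [yy, cmb, g]
    refine Finset.sum_congr rfl fun k _ => ?_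
    rw [map_intCast]
  rw [h6]
  exact ha2

end Pool.Agent.Q147.LG
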