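import Pool.Agent.Q147.LG.Box

/-!
# Thin sets of tuples
-/

set_option autoImplicit false

namespace Pool.Agent.Q147.LG

open Filter Module Pool.Agent.Y787.GL Pool.Agent.Y787.FE Pool.Agent.Y787.HS MvPolynomial
open Pool.Agent.TH519.GL Pool.Agent.TH519.HS
open Pool.Agent.Y787 (QC mem_QC HypC hyperplane hyperplane' Lt_one baker')

variable {Cc : Type} [Field Cc] [CharZero Cc] [IsAlgClosed Cc] [Uncountable Cc]

/-- For every space of linear forms in logarithms of dimension `M`, the tuples in `S` with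
coordinates in the space lie in an algebraic subset of dimension less than `q M`. -/
def Thin (Lt : Submodule (QC Cc) Cc) {m : ℕ} (q : ℕ → ℕ) (S : Set (Fin m → Cc)) : Prop :=
  ∀ (M : ℕ) (l' : Fin M → Cc), LinearIndependent (QC Cc) l' → (∀ j, l' j ∈ Lt) →
    ∀ φ : Fin (q M) → ((Fin m × Fin M → (QC Cc)) →ₗ[(QC Cc)] (QC Cc)),
      ∃ P : MvPolynomial (Fin (q M)) (QC Cc), P ≠ 0 ∧ ∀ b : Fin m → Fin M → (QC Cc),
        yy l' b ∈ S → MvPolynomial.eval (fun k => φ k (fun z => b z.1 z.2)) P = 0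

theorem Thin.mono {Lt : Submodule (QC Cc) Cc} {m : ℕ} {q q' : ℕ → ℕ} {S S' : Set (Fin m → Cc)}
    (h : Thin Lt q S) (hS : S' ⊆ S) (hq : ∀ M, q M ≤ q' M) : Thin Lt q' S' := by
  intro M l' hl hl' φ
  obtain ⟨P, h1, h2⟩ := h M l' hl hl' (fun k => φ (Fin.castLE (hq M) k))
  refine ⟨rename (Fin.castLE (hq M)) P, ?_, fun b hb => ?_⟩
  · intro h0
    apply h1
    apply rename_injective _ (Fin.castLE_injective (hq M))
    rw [h0, map_zero]
  · rw [eval_rename]
    exact h2 b (hS hb)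

/-- **The dimension.** -/
theorem Thin.dim {Lt : Submodule (QC Cc) Cc} {m : ℕ} {q : ℕ → ℕ} {S : Set (Fin m → Cc)}
    (h : Thin Lt q S) (W : Submodule (QC Cc) Cc) [FiniteDimensional (QC Cc) W] (hW : W ≤ Lt)
    (φ : Fin (q (finrank (QC Cc) W)) → ((Fin m → W) →ₗ[(QC Cc)] (QC Cc))) :
    ∃ P : MvPolynomial (Fin (q (finrank (QC Cc) W))) (QC Cc), P ≠ 0 ∧ ∀ y : Fin m → W,
      (fun i => (y i : Cc)) ∈ S → MvPolynomial.eval (fun k => φ k y) P = 0 := by
  obtain ⟨P, h1, h2⟩ := h _ (bs W) (bs_li W)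
    (fun j => hW (Module.finBasis (QC Cc) W j).2) (fun k => φ k ∘ₗ mkV m)
  refine ⟨P, h1, ?_⟩
  intro y hy
  have h3 : yy (bs W) (fun i j => (Module.finBasis (QC Cc) W).repr (y i) j) = fun i => (y i : Cc) := by
    funext i
    exact cmb_bs' W (y i)
  have h4 := h2 (fun i j => (Module.finBasis (QC Cc) W).repr (y i) j) (by
    rw [h3]
    exact hy)
  have h5 : mkV (K := (QC Cc)) (W := W) m (fun q => (Module.finBasis (QC Cc) W).repr (y q.1) q.2) =
      y := by
    funext i
    exact (Module.finBasis (QC Cc) W).sum_repr (y i)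
  simp only [LinearMap.comp_apply, h5] at h4
  exact h4

/-- **The number of integral points.** -/
theorem Thin.count {Lt : Submodule (QC Cc) Cc} {m : ℕ} {q : ℕ → ℕ} {S : Set (Fin m → Cc)}
    (h : Thin Lt q S) {N : ℕ} (l : Fin N → Cc) (hl : LinearIndependent (QC Cc) l)
    (hl' : ∀ j, l j ∈ Lt) {d : ℕ} (hd : q N ≤ d + 1) :
    ∃ κ : ℕ, ∀ H : ℕ, 1 ≤ H → Set.ncard {a : Fin m → Fin N → ℤ | (∀ i j, |a i j| ≤ H) ∧
      (fun i => ∑ j, (a i j : Cc) * l j) ∈ S} ≤ κ * H ^ d := by
  classical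
  let T : Set (Fin m × Fin N → (QC Cc)) := {z | yy l (fun i j => z (i, j)) ∈ S}
  obtain ⟨κ, hκ⟩ := count_gen (d := d) T (by
    intro φ
    obtain ⟨P, h1, h2⟩ := h N l hl hl' (fun k => φ (Fin.castLE hd k))
    refine ⟨rename (Fin.castLE hd) P, ?_, fun z hz => ?_⟩
    · intro h0
      apply h1
      apply rename_injective _ (Fin.castLE_injective hd)
      rw [h0, map_zero]
    · rw [eval_rename]
      exact h2 (fun i j => z (i, j)) hz)
  refine ⟨κ, fun H hH => ?_⟩
  set V := {a : Fin m → Fin N → ℤ | (∀ i j, |a i j| ≤ H) ∧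
      (fun i => ∑ j, (a i j : Cc) * l j) ∈ S} with hV
  have hfin : V.Finite := (box_finite m N H).subset fun a ha => ha.1
  rw [Set.ncard_eq_toFinset_card V hfin]
  let g : (Fin m → Fin N → ℤ) → (Fin m × Fin N → ℤ) := fun a p => a p.1 p.2
  have hg : Function.Injective g := by
    intro a a' h
    funext i k
    exact congrFun h (i, k)
  rw [← Finset.card_image_of_injective _ hg]
  refine hκ H hH _ ?_
  intro c hc
  obtain ⟨a, ha, rfl⟩ := Finset.mem_image.1 hc
  rw [Set.Finite.mem_toFinset] at ha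
  obtain ⟨ha1, ha2⟩ := ha
  refine ⟨fun p => ha1 _ _, ?_⟩
  change yy l (fun i j => ((g a (i, j) : ℤ) : (QC Cc))) ∈ S
  have h6 : (yy l fun i j => ((g a (i, j) : ℤ) : (QC Cc))) = fun i => ∑ k, (a i k : Cc) * l k := by
    funext i
    simp only [yy, cmb, g]
    refine Finset.sum_congr rfl fun k _ => ?_
    rw [map_intCast]
  rw [h6]
  exact ha2

variable {Lt : Submodule (QC Cc) Cc} [HypC Lt]

/-- **Strata.** -/
theorem thin_strat {n m s D h c : ℕ} (hs : s < m) (hh : 0 < h)
    (A B E : Finset ((Fin n ⊕ Fin m) →₀ ℕ)) (hA : Low A) (hB : Low B)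
    (hAD : ∀ t ∈ A, t.degree ≤ D) (hBD : ∀ t ∈ B, t.degree ≤ D)
    (hE : ∀ s ∈ A, ∀ t ∈ B, s + t ∈ E) (hmB : m * h ≤ B.card) (x : Fin n → Cc)
    (hq1 : m * (h * m - 1) + (E.card - B.card) / h + 1 ≤ c)
    (hq2 : m * (m - 1) + B.card ≤ c) :
    Thin Lt (fun M => (m - 1 - s) * M + c) {y : Fin m → Cc | StratA D s A x y} := by
  intro M l' hl hl' φ
  exact stratA_coord (D := D) hs hh A B E hA hB hAD hBD hE hmB l' hl hl' x
    (by change _ ≤ (m - 1 - s) * M + c; omega) (by change _ ≤ (m - 1 - s) * M + c; omega) φ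

/-- strata, without multipliers -/
theorem thin_strat_one {n m s D : ℕ} (hs : s < m)
    (A : Finset ((Fin n ⊕ Fin m) →₀ ℕ)) (hA : Low A) (hA0 : 0 < A.card)
    (hAD : ∀ t ∈ A, t.degree ≤ D) (x : Fin n → Cc) :
    Thin Lt (fun M => (m - 1 - s) * M + (m * (m - 1) + A.card))
      {y : Fin m → Cc | StratA D s A x y} := by
  intro M l' hl hl' φ
  have hq : (m - 1 - s) * M + m * (1 * m - 1) + (A.card - ({0} :
      Finset ((Fin n ⊕ Fin m) →₀ ℕ)).card) / 1 + 1 ≤ (m - 1 - s) * M + (m * (m - 1) + A.card) := by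
    rw [Finset.card_singleton, Nat.div_one, one_mul]
    omega
  obtain ⟨P, hP, h1⟩ := rel_mul (ρ := m - 1 - s) one_pos A {0} A (by
    intro s hs t ht
    rw [Finset.mem_singleton.1 ht, add_zero]
    exact hs) l' hl hl' x (fun k => φ (Fin.castLE hq k))
  refine ⟨rename (Fin.castLE hq) P, ?_, fun b hy => ?_⟩
  · intro h0
    apply hP
    apply rename_injective _ (Fin.castLE_injective hq)
    rw [h0, map_zero]
  · rw [eval_rename]
    obtain ⟨f, hf0, hfA, hf, hmin⟩ := exists_minA _ hy.1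
    exact h1 b f hf0 hfA hf (rich_one _) (rankA hA hAD hs x _ hy.2 f hf0 hfA hf hmin)

/-- **Strata, boxes.** -/
theorem thin_box {n m s D : ℕ} (hs : s < m) (a : Fin n ⊕ Fin m → ℕ)
    (hD : m * ∑ i, (a i + 1) ≤ D) (x : Fin n → Cc) :
    Thin Lt (fun M => (m - 1 - s) * M + con m (n + m) * num a)
      {y : Fin m → Cc | StratA D s (box a) x y} := by
  classical
  have hm : 0 < m := by omega
  let i₀ : Fin n ⊕ Fin m := Sum.inr ⟨0, hm⟩
  have hcard : Fintype.card (Fin n ⊕ Fin m) = n + m := by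
    rw [Fintype.card_sum, Fintype.card_fin, Fintype.card_fin]
  refine thin_strat hs (num_pos a) (box a) (box (side m i₀ a)) (box (fun i => a i + side m i₀ a i))
    (low_box _) (low_box _) ?_ ?_ (add_box _ _) (le_of_eq (card_side hm i₀ a).symm) x ?_ ?_
  · intro t ht
    refine (degree_box a ht).trans (le_trans ?_ hD)
    calc ∑ i, a i ≤ ∑ i, (a i + 1) := Finset.sum_le_sum fun i _ => Nat.le_succ _
      _ ≤ m * ∑ i, (a i + 1) := Nat.le_mul_of_pos_left _ hm
  · intro t ht
    exact (degree_box _ ht).trans ((sum_side_le hm i₀ a).trans hD)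
  · have := con_bound1 hm i₀ a
    rwa [hcard] at this
  · have := con_bound2 hm i₀ a
    rwa [hcard] at this

/-! ### tuples without further numbers -/

/-- `A` as a set of exponents in the variables of `Sum.elim x y` -/
noncomputable def up {m : ℕ} (A : Finset (Fin m →₀ ℕ)) : Finset ((Fin 0 ⊕ Fin m) →₀ ℕ) := by
  classical exact A.image (Finsupp.mapDomain Sum.inr)

theorem mem_up {m : ℕ} (A : Finset (Fin m →₀ ℕ)) (s : (Fin 0 ⊕ Fin m) →₀ ℕ) :
    s ∈ up A ↔ ∃ t ∈ A, Finsupp.mapDomain Sum.inr t = s := by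
  classical
  rw [up, Finset.mem_image]

theorem card_up {m : ℕ} (A : Finset (Fin m →₀ ℕ)) : (up A).card = A.card := by
  classical
  rw [up, Finset.card_image_of_injective _ (Finsupp.mapDomain_injective Sum.inr_injective)]

theorem low_up {m : ℕ} {A : Finset (Fin m →₀ ℕ)} (hA : Low A) : Low (up A) := by
  classical
  intro s hs t ht
  rw [mem_up] at hs ⊢
  obtain ⟨s', hs', rfl⟩ := hs
  have h1 : Finsupp.mapDomain (Sum.inr : Fin m → Fin 0 ⊕ Fin m)
      (Finsupp.comapDomain Sum.inr t Sum.inr_injective.injOn) = t := by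
    apply Finsupp.mapDomain_comapDomain _ Sum.inr_injective
    intro i _
    cases i with
    | inl i => exact i.elim0
    | inr i => exact ⟨i, rfl⟩
  refine ⟨_, hA s' hs' _ ?_, h1⟩
  intro i
  rw [Finsupp.comapDomain_apply]
  refine (ht (Sum.inr i)).trans ?_
  rw [Finsupp.mapDomain_apply Sum.inr_injective]

theorem add_up {m : ℕ} {A B E : Finset (Fin m →₀ ℕ)} (hE : ∀ s ∈ A, ∀ t ∈ B, s + t ∈ E) :
    ∀ s ∈ up A, ∀ t ∈ up B, s + t ∈ up E := by
  intro s hs t ht
  rw [mem_up] at hs ht ⊢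
  obtain ⟨s', hs', rfl⟩ := hs
  obtain ⟨t', ht', rfl⟩ := ht
  exact ⟨s' + t', hE s' hs' t' ht', Finsupp.mapDomain_add⟩

theorem strat_of_li {m D : ℕ} (A : Finset (Fin m →₀ ℕ)) (y : Fin m → Cc)
    (hy1 : LinearIndependent (QC Cc) (Fin.cons 1 y : Fin (m + 1) → Cc))
    (hy2 : RlA (QC Cc) A y) : StratA D 1 (up A) (fun i : Fin 0 => i.elim0) y := by
  classical
  refine ⟨?_, fun u hu h => ?_⟩
  · obtain ⟨f, hf0, hfA, hf⟩ := hy2
    refine ⟨rename Sum.inr f, ?_, ?_, ?_⟩
    · intro h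
      apply hf0
      apply rename_injective _ Sum.inr_injective
      rw [h, map_zero]
    · intro s hs
      rw [support_rename_of_injective Sum.inr_injective, Finset.mem_image] at hs
      obtain ⟨t, ht, rfl⟩ := hs
      exact (mem_up _ _).2 ⟨t, hfA ht, rfl⟩
    · rw [aeval_rename]
      exact hf
  · have h1 : (fun j : Fin 1 => ∑ i, (u j i : Cc) * y i) = fun _ : Fin 1 => ∑ i, (u 0 i : Cc) * y i := by
      funext j
      rw [Subsingleton.elim j 0]
    rw [h1] at h
    have hz := mem_of_RlK _ _ h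
    rw [Fintype.linearIndependent_iff] at hy1
    have h3 := hy1 (Fin.cons (-⟨_, hz⟩) (u 0)) (by
      rw [Fin.sum_univ_succ]
      simp only [Fin.cons_zero, Fin.cons_succ]
      have h4 : ∀ i, u 0 i • y i = (u 0 i : Cc) * y i := by
        intro i
        rw [Algebra.smul_def]
        rfl
      simp only [h4]
      rw [Algebra.smul_def, mul_one, map_neg]
      exact neg_add_cancel _)
    apply hu.ne_zero 0
    funext i
    have := h3 i.succ
    rwa [Fin.cons_succ] at this

/-- the tuples `y` with a relation with exponents in `A` for which `1, y` are independent -/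
def Dep {m : ℕ} (A : Finset (Fin m →₀ ℕ)) : Set (Fin m → Cc) :=
  {y | LinearIndependent (QC Cc) (Fin.cons 1 y : Fin (m + 1) → Cc) ∧ RlA (QC Cc) A y}

/-- **Independent tuples.** -/
theorem thin_dep {m h c : ℕ} (hm : 1 < m) (hh : 0 < h)
    (A B E : Finset (Fin m →₀ ℕ)) (hA : Low A) (hB : Low B)
    (hE : ∀ s ∈ A, ∀ t ∈ B, s + t ∈ E) (hmB : m * h ≤ B.card)
    (hq1 : m * (h * m - 1) + (E.card - B.card) / h + 1 ≤ c)
    (hq2 : m * (m - 1) + B.card ≤ c) :
    Thin Lt (fun M => (m - 2) * M + c) (Dep (Cc := Cc) A) := by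
  classical
  let D := max ((up A).sup Finsupp.degree) ((up B).sup Finsupp.degree)
  have h1 := thin_strat (Lt := Lt) (D := D) (s := 1) hm hh (up A) (up B) (up E)
    (low_up hA) (low_up hB)
    (fun t ht => le_max_of_le_left (Finset.le_sup (f := Finsupp.degree) ht))
    (fun t ht => le_max_of_le_right (Finset.le_sup (f := Finsupp.degree) ht))
    (add_up hE) (by rwa [card_up]) (fun i : Fin 0 => i.elim0) (c := c)
    (by rwa [card_up, card_up]) (by rwa [card_up])
  refine h1.mono (fun y hy => strat_of_li A y hy.1 hy.2) fun M => ?_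
  have : m - 1 - 1 = m - 2 := by omega
  rw [this]

theorem thin_dep_one {m : ℕ} (hm : 1 < m) (A : Finset (Fin m →₀ ℕ)) (hA : Low A)
    (hA0 : 0 < A.card) :
    Thin Lt (fun M => (m - 2) * M + (m * (m - 1) + A.card)) (Dep (Cc := Cc) A) := by
  classical
  have h1 := thin_strat_one (Lt := Lt) (D := (up A).sup Finsupp.degree) (s := 1) hm (up A)
    (low_up hA) (by rwa [card_up]) (fun t ht => Finset.le_sup (f := Finsupp.degree) ht)
    (fun i : Fin 0 => i.elim0)
  refine h1.mono (fun y hy => strat_of_li A y hy.1 hy.2) fun M => ?_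
  have : m - 1 - 1 = m - 2 := by omega
  simp only [this, card_up]
  exact le_rfl

/-- **Independent tuples, boxes.** -/
theorem thin_dep_box {m : ℕ} (hm : 1 < m) (a : Fin m → ℕ) :
    Thin Lt (fun M => (m - 2) * M + con m m * num a) (Dep (Cc := Cc) (box a)) := by
  classical
  have hm0 : 0 < m := by omega
  let i₀ : Fin m := ⟨0, hm0⟩
  refine thin_dep hm (num_pos a) (box a) (box (side m i₀ a)) (box (fun i => a i + side m i₀ a i))
    (low_box _) (low_box _) (add_box _ _) (le_of_eq (card_side hm0 i₀ a).symm) ?_ ?_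
  · have := con_bound1 hm0 i₀ a
    rwa [Fintype.card_fin] at this
  · have := con_bound2 hm0 i₀ a
    rwa [Fintype.card_fin] at this

end Pool.Agent.Q147.LG
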